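import Mathlib
import Pool.Agent.TH216.MF.FarkasQ

/-!
Ville's theorem of the alternative, and its form for the exponents of a family of polynomials.
-/

set_option autoImplicit false

namespace Pool.Agent.Y199.NN

open Finset

/-- common denominators -/
theorem clear {B : Type} [Fintype B] (l : B → ℚ) (hl : ∀ b, 0 ≤ l b) :
    ∃ (d : ℕ) (m : B → ℕ), 0 < d ∧ ∀ b, (m b : ℚ) = d * l b := by
  classical
  refine ⟨∏ b, (l b).den, fun b => (∏ c ∈ Finset.univ.erase b, (l c).den) * (l b).num.toNat,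
    Finset.prod_pos fun b _ => (l b).den_pos, fun b => ?_⟩
  have h1 : ((l b).num.toNat : ℚ) = (l b).num := by
    have h2 : (((l b).num.toNat : ℕ) : ℤ) = (l b).num := Int.toNat_of_nonneg (Rat.num_nonneg.2 (hl b))
    exact_mod_cast congrArg (fun z : ℤ => (z : ℚ)) h2
  have h3 : ((l b).num : ℚ) = (l b).den * l b := by
    rw [mul_comm]
    exact (Rat.mul_den_eq_num (l b)).symm
  rw [Nat.cast_mul, h1, h3, ← Finset.mul_prod_erase Finset.univ (fun c => (l c).den)
    (Finset.mem_univ b)]
  push_cast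
  ring

/-- Ville's theorem of the alternative. -/
theorem ville {B : Type} [Fintype B] {n : ℕ} (v : B → Fin n → ℤ) :
    (∃ l : B → ℕ, (∃ b, l b ≠ 0) ∧ ∀ i, 0 ≤ ∑ b, (l b : ℤ) * v b i) ∨
    (∃ w : Fin n → ℕ, ∀ b, ∑ i, (w i : ℤ) * v b i < 0) := by
  classical
  by_cases hw : ∃ w : Fin n → ℚ, (∀ i, 0 ≤ w i) ∧ ∀ b, ∑ i, w i * (v b i : ℚ) < 0
  · right
    obtain ⟨w, hw0, hw⟩ := hw
    obtain ⟨d, m, hd, hm⟩ := clear w hw0
    refine ⟨m, fun b => ?_⟩
    have h1 : ((∑ i, (m i : ℤ) * v b i : ℤ) : ℚ) = d * ∑ i, w i * (v b i : ℚ) := by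
      push_cast
      rw [Finset.mul_sum]
      refine Finset.sum_congr rfl fun i _ => ?_
      rw [hm i]
      ring
    have h2 : ((∑ i, (m i : ℤ) * v b i : ℤ) : ℚ) < 0 := by
      rw [h1]
      have hd' : (0 : ℚ) < d := by exact_mod_cast hd
      exact mul_neg_of_pos_of_neg hd' (hw b)
    exact_mod_cast h2
  · left
    push Not at hw
    let q := Fintype.card B
    let eB : B ≃ Fin q := Fintype.equivFin B
    let U := (Fin n → ℚ) × ℚ
    let l1 : Fin n → (U →ₗ[ℚ] ℚ) := fun i => -((LinearMap.proj i).comp (LinearMap.fst ℚ _ ℚ))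
    let l2 : Fin q → (U →ₗ[ℚ] ℚ) := fun b =>
      (∑ i, (v (eB.symm b) i : ℚ) • (LinearMap.proj i).comp (LinearMap.fst ℚ (Fin n → ℚ) ℚ)) +
        LinearMap.snd ℚ _ ℚ
    have hl1 : ∀ i (u : U), l1 i u = - u.1 i := fun i u => rfl
    have hl2 : ∀ b (u : U), l2 b u = (∑ i, u.1 i * (v (eB.symm b) i : ℚ)) + u.2 := by
      intro b u
      simp only [l2, LinearMap.add_apply, LinearMap.sum_apply, LinearMap.smul_apply,
        LinearMap.comp_apply, LinearMap.fst_apply, LinearMap.proj_apply, smul_eq_mul,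
        LinearMap.snd_apply]
      congr 1
      exact Finset.sum_congr rfl fun i _ => mul_comm _ _
    obtain ⟨c, hc, hf⟩ := Pool.Agent.TH216.MF.farkas_lin (n + q) (Fin.append l1 l2)
      (LinearMap.snd ℚ (Fin n → ℚ) ℚ) (by
        intro u hu
        rw [LinearMap.snd_apply]
        by_contra hneg
        push Not at hneg
        obtain ⟨b, hb⟩ := hw u.1 (fun i => by
          have := hu (Fin.castAdd q i)
          rw [Fin.append_left, hl1] at this
          linarith)
        have h1 := hu (Fin.natAdd n (eB b))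
        rw [Fin.append_right, hl2, Equiv.symm_apply_apply] at h1
        linarith)
    have hsum : ∀ u : U, u.2 = (∑ i, c (Fin.castAdd q i) * (- u.1 i)) +
        ∑ b, c (Fin.natAdd n b) * ((∑ i, u.1 i * (v (eB.symm b) i : ℚ)) + u.2) := by
      intro u
      have h1 := hf u
      rw [LinearMap.snd_apply, Fin.sum_univ_add] at h1
      simp only [Fin.append_left, Fin.append_right, hl1, hl2] at h1
      exact h1
    have h1 : ∑ b, c (Fin.natAdd n b) = 1 := by
      have := hsum ((0 : Fin n → ℚ), (1 : ℚ))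
      simpa using this.symm
    have h2 : ∀ i, ∑ b, c (Fin.natAdd n b) * (v (eB.symm b) i : ℚ) = c (Fin.castAdd q i) := by
      intro i
      have h3 := hsum ((Pi.single i 1 : Fin n → ℚ), (0 : ℚ))
      have e1 : ∑ i', c (Fin.castAdd q i') * (-(Pi.single i 1 : Fin n → ℚ) i') =
          - c (Fin.castAdd q i) := by
        rw [Finset.sum_eq_single i]
        · simp
        · intro b _ hb
          simp [hb]
        · simp
      have e2 : ∀ b : Fin q, (∑ i', (Pi.single i 1 : Fin n → ℚ) i' * (v (eB.symm b) i' : ℚ)) + 0 =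
          (v (eB.symm b) i : ℚ) := by
        intro b
        rw [Finset.sum_eq_single i]
        · simp
        · intro b _ hb
          simp [hb]
        · simp
      simp only [e1, e2] at h3
      linarith
    obtain ⟨d, m, hd, hm⟩ := clear (fun b : B => c (Fin.natAdd n (eB b))) (fun b => hc _)
    have hd' : (0 : ℚ) < d := by exact_mod_cast hd
    refine ⟨m, ?_, fun i => ?_⟩
    · by_contra hne
      push Not at hne
      have h3 : ∑ b : B, c (Fin.natAdd n (eB b)) = 1 := by
        rw [← h1]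
        exact Equiv.sum_comp eB (fun b => c (Fin.natAdd n b))
      have h4 : ∀ b : B, c (Fin.natAdd n (eB b)) = 0 := by
        intro b
        have h5 := hm b
        rw [hne b] at h5
        have h6 : (d : ℚ) * c (Fin.natAdd n (eB b)) = 0 := by
          rw [← h5]; simp
        rcases mul_eq_zero.1 h6 with h7 | h7
        · exact absurd h7 hd'.ne'
        · exact h7
      rw [Finset.sum_eq_zero fun b _ => h4 b] at h3
      norm_num at h3
    · have h3 : ((∑ b, (m b : ℤ) * v b i : ℤ) : ℚ) = d * c (Fin.castAdd q i) := by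
        rw [← h2 i, Finset.mul_sum, ← Equiv.sum_comp eB]
        push_cast
        refine Finset.sum_congr rfl fun b _ => ?_
        rw [hm b, Equiv.symm_apply_apply]
        ring
      have h4 : (0 : ℚ) ≤ ((∑ b, (m b : ℤ) * v b i : ℤ) : ℚ) := by
        rw [h3]
        exact mul_nonneg hd'.le (hc _)
      exact_mod_cast h4

/-- a list with given multiplicities -/
theorem exists_mult {B : Type} [Fintype B] (l : B → ℕ) :
    ∃ (N : ℕ) (g : Fin N → B), N = ∑ b, l b ∧
      ∀ φ : B → ℤ, ∑ x, φ (g x) = ∑ b, (l b : ℤ) * φ b := by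
  classical
  let T := (b : B) × Fin (l b)
  let e : T ≃ Fin (Fintype.card T) := Fintype.equivFin T
  refine ⟨Fintype.card T, fun x => (e.symm x).1, ?_, fun φ => ?_⟩
  · simp [T]
  · rw [← Equiv.sum_comp e]
    simp only [Equiv.symm_apply_apply]
    rw [Fintype.sum_sigma]
    refine Finset.sum_congr rfl fun b _ => ?_
    simp

variable {n : ℕ} {ι : Type} [Fintype ι] {k : Type} [Field k]

/-- `N` exponents from the support of each `H j` such that the sum of all these exponents is at
least `(N, ..., N)`: the point `(1, ..., 1)` is below the sum of the Newton polytopes. -/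
def Below (H : ι → MvPolynomial (Fin n) k) : Prop :=
  ∃ (N : ℕ) (e : ι → Fin N → (Fin n →₀ ℕ)), 0 < N ∧ (∀ j l, e j l ∈ (H j).support) ∧
    ∀ i, N ≤ ∑ j, ∑ l, e j l i

theorem wdeg_ge (w : Fin n → ℕ) (F : MvPolynomial (Fin n) k) {a : Fin n →₀ ℕ}
    (ha : a ∈ F.support) : ∑ i, w i * a i ≤ MvPolynomial.weightedTotalDegree w F := by
  have h1 := MvPolynomial.le_weightedTotalDegree w ha
  rw [Finsupp.weight_apply, Finsupp.sum_fintype _ _ (by simp)] at h1
  refine le_trans (le_of_eq ?_) h1
  exact Finset.sum_congr rfl fun i _ => by rw [smul_eq_mul, mul_comm]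

theorem exists_wdeg (w : Fin n → ℕ) (F : MvPolynomial (Fin n) k) (hF : F ≠ 0) :
    ∃ a ∈ F.support, MvPolynomial.weightedTotalDegree w F = ∑ i, w i * a i := by
  obtain ⟨a, ha, h1⟩ := Finset.exists_mem_eq_sup F.support (MvPolynomial.support_nonempty.2 hF)
    (fun s => Finsupp.weight w s)
  refine ⟨a, ha, ?_⟩
  have h2 : MvPolynomial.weightedTotalDegree w F = F.support.sup fun s => Finsupp.weight w s := rfl
  rw [h2, h1, Finsupp.weight_apply, Finsupp.sum_fintype _ _ (by simp)]
  exact Finset.sum_congr rfl fun i _ => by rw [smul_eq_mul, mul_comm]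

theorem not_below (H : ι → MvPolynomial (Fin n) k) {w : Fin n → ℕ}
    (hw : ∑ j, MvPolynomial.weightedTotalDegree w (H j) < ∑ i, w i) : ¬ Below H := by
  rintro ⟨N, e, hN, he, hs⟩
  have h1 : ∑ i, w i * N ≤ ∑ i, w i * ∑ j, ∑ l, e j l i :=
    Finset.sum_le_sum fun i _ => Nat.mul_le_mul_left _ (hs i)
  have h2 : ∑ i, w i * ∑ j, ∑ l, e j l i = ∑ j, ∑ l, ∑ i, w i * e j l i := by
    simp only [Finset.mul_sum]
    rw [Finset.sum_comm]
    refine Finset.sum_congr rfl fun j _ => ?_
    rw [Finset.sum_comm]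
  have h3 : ∑ j, ∑ l, ∑ i, w i * e j l i ≤
      ∑ j, ∑ _l : Fin N, MvPolynomial.weightedTotalDegree w (H j) :=
    Finset.sum_le_sum fun j _ => Finset.sum_le_sum fun l _ => wdeg_ge w _ (he j l)
  have h4 : ∑ j, ∑ _l : Fin N, MvPolynomial.weightedTotalDegree w (H j) =
      N * ∑ j, MvPolynomial.weightedTotalDegree w (H j) := by
    simp [Finset.mul_sum]
  rw [← Finset.sum_mul] at h1
  have h5 : (∑ i, w i) * N ≤ N * ∑ j, MvPolynomial.weightedTotalDegree w (H j) := by
    rw [← h4]
    exact h1.trans (h2.le.trans h3)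
  rw [mul_comm] at h5
  have := Nat.le_of_mul_le_mul_left h5 hN
  omega

/-- the alternative for the exponents of a family of nonzero polynomials -/
theorem below_or (H : ι → MvPolynomial (Fin n) k) (hH : ∀ j, H j ≠ 0) (h : ¬ Below H) :
    ∃ w : Fin n → ℕ, ∑ j, MvPolynomial.weightedTotalDegree w (H j) < ∑ i, w i := by
  classical
  let B := (j : ι) → {a // a ∈ (H j).support}
  rcases ville (fun (b : B) (i : Fin n) => (∑ j, ((b j).1 i : ℤ)) - 1) with h1 | h1
  · exfalso
    apply h
    obtain ⟨l, ⟨b0, hb0⟩, hl⟩ := h1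
    obtain ⟨N, g, hN, hg⟩ := exists_mult l
    refine ⟨N, fun j x => (g x j).1, ?_, fun j x => (g x j).2, fun i => ?_⟩
    · rw [hN]
      exact lt_of_lt_of_le (Nat.pos_of_ne_zero hb0)
        (Finset.single_le_sum (f := l) (fun _ _ => Nat.zero_le _) (Finset.mem_univ b0))
    · have h2 := hl i
      rw [← hg (fun b => (∑ j, ((b j).1 i : ℤ)) - 1)] at h2
      rw [Finset.sum_sub_distrib, Finset.sum_const, Finset.card_univ, Fintype.card_fin,
        Finset.sum_comm] at h2
      simp only [nsmul_eq_mul, mul_one, sub_nonneg] at h2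
      exact_mod_cast h2
  · obtain ⟨w, hw⟩ := h1
    refine ⟨w, ?_⟩
    choose a ha haw using fun j => exists_wdeg w (H j) (hH j)
    have h2 := hw (fun j => ⟨a j, ha j⟩)
    simp only [haw]
    have h3 : ((∑ j, ∑ i, w i * a j i : ℕ) : ℤ) - ((∑ i, w i : ℕ) : ℤ) < 0 := by
      refine lt_of_eq_of_lt ?_ h2
      push_cast
      rw [Finset.sum_comm, ← Finset.sum_sub_distrib]
      refine Finset.sum_congr rfl fun i _ => ?_
      rw [mul_sub, mul_one, Finset.mul_sum]
    have h4 : ((∑ j, ∑ i, w i * a j i : ℕ) : ℤ) < ((∑ i, w i : ℕ) : ℤ) := by linarith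
    exact_mod_cast h4

end Pool.Agent.Y199.NN
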