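import Pool.Agent.W73.PG.PULL
import Pool.Agent.W762.PG.PRES
import Pool.Agent.W240.PG.Frame
import Pool.Agent.W828.PG.DIVI
import Pool.Agent.W602.GT.KNeg
import Pool.Agent.W602.GT.Dich
import Pool.Agent.W602.GT.Sys

/-!
`A¹`-uniruled varieties have logarithmic Kodaira dimension `-∞`.
-/

set_option autoImplicit false

open FF IntermediateField Pool.Agent.W619.PQ Pool.Agent.W619.PL Pool.Agent.W619.TW
  Pool.Agent.W619.Y Pool.Agent.W602.GT

namespace Pool.Agent.Y199.NN

theorem pull : S_PULL.{0, 0} :=
  Pool.Agent.W73.PG.PULL.main (Pool.Agent.W240.PG.Frame.main Pool.Agent.W762.PG.main)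
    Pool.Agent.W828.PG.main

variable {k K : Type} [Field k] [CharZero k] [Field K] [Algebra k K]

omit [CharZero k] in
theorem fin_over' [Algebra.EssFiniteType k K] {n : ℕ} (y : Fin n → K)
    (hy : IsTranscendenceBasis k y) :
    FiniteDimensional (IntermediateField.adjoin k (Set.range y)) K := by
  set K0 := IntermediateField.adjoin k (Set.range y) with hK0
  have hess : Algebra.EssFiniteType K0 K := Algebra.EssFiniteType.of_comp k K0 K
  have halg : Algebra.IsAlgebraic K0 K := hy.isAlgebraic_field
  obtain ⟨s, hs⟩ := IntermediateField.fg_top K0 K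
  have h1 : FiniteDimensional K0 (IntermediateField.adjoin K0 (s : Set K)) :=
    IntermediateField.finiteDimensional_adjoin fun x _ => (halg.isAlgebraic x).isIntegral
  rw [hs] at h1
  exact h1.equiv IntermediateField.topEquiv.toLinearEquiv

theorem neg_of_a1 [Algebra.EssFiniteType k K] {n : ℕ} (htr : Algebra.trdeg k K = n)
    {Bd : Place k K → Prop} (h : IsA1Uniruled k K n Bd) : LogKodairaNeg k K n Bd := by
  classical
  obtain ⟨M, iF, iA, φ, hess, htrM, hA⟩ := h
  let _ : Algebra K (RatFunc M) := φ.toRingHom.toAlgebra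
  have t1 : IsScalarTower k K (RatFunc M) := IsScalarTower.of_algebraMap_eq fun c => by
    change _ = φ (algebraMap k K c)
    rw [φ.commutes]
  have hmap : ∀ f : K, algebraMap K (RatFunc M) f = φ f := fun _ => rfl
  have hXM : Transcendental M (RatFunc.X : RatFunc M) := RatFunc.transcendental_X
  have htopM : M⟮(RatFunc.X : RatFunc M)⟯ = ⊤ := RatFunc.adjoin_X
  have hessXM : Algebra.EssFiniteType M (RatFunc M) := by
    have h1 : (⊤ : IntermediateField M (RatFunc M)).FG := by
      rw [← htopM]
      exact ⟨{RatFunc.X}, by simp⟩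
    have h2 : Algebra.EssFiniteType M (⊤ : IntermediateField M (RatFunc M)) :=
      (IntermediateField.essFiniteType_iff).2 h1
    exact (Algebra.EssFiniteType.iff_of_algEquiv (IntermediateField.topEquiv
      (F := M) (E := RatFunc M))).1 h2
  have hessR : Algebra.EssFiniteType k (RatFunc M) := Algebra.EssFiniteType.comp k M (RatFunc M)
  have htrX : IsTranscendenceBasis M (fun _ : Unit => (RatFunc.X : RatFunc M)) := by
    have h1 : AlgebraicIndependent M (fun _ : Unit => (RatFunc.X : RatFunc M)) :=
      (algebraicIndependent_unique_type_iff).2 hXM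
    rw [h1.isTranscendenceBasis_iff_isAlgebraic]
    have h2 : Set.range (fun _ : Unit => (RatFunc.X : RatFunc M)) = {RatFunc.X} := by simp
    rw [h2]
    have h3 : Algebra.IsAlgebraic M⟮(RatFunc.X : RatFunc M)⟯ (RatFunc M) := by
      rw [htopM]
      exact ⟨fun z => isAlgebraic_algebraMap
        (⟨z, trivial⟩ : (⊤ : IntermediateField M (RatFunc M)))⟩
    exact alg_adjoin h3
  have hR : Algebra.trdeg k (RatFunc M) = n := by
    have h1 := _root_.trdeg_add_eq k M (A := RatFunc M)
    have h2 : Algebra.trdeg M (RatFunc M) = 1 := by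
      rw [← htrX.cardinalMk_eq_trdeg]
      simp
    rw [← h1, h2]
    exact htrM
  -- finiteness
  obtain ⟨y, hy⟩ := basis_of_trdeg htr
  have hyR : AlgebraicIndependent k (fun i => φ (y i)) := hy.1.map' φ.injective
  have hyb : IsTranscendenceBasis k (fun i => φ (y i)) := by
    refine hyR.isTranscendenceBasis_of_lift_trdeg_le_of_finite ?_
    rw [hR]
    simp
  have halg : Algebra.IsAlgebraic K (RatFunc M) := by
    have h1 : Algebra.IsAlgebraic (IntermediateField.adjoin k (Set.range fun i => φ (y i)))
      (RatFunc M) := hyb.isAlgebraic_field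
    refine ⟨fun z => ?_⟩
    have h2 := h1.isAlgebraic z
    have hle : IntermediateField.adjoin k (Set.range fun i => φ (y i)) ≤ φ.fieldRange := by
      rw [adjoin_le_iff]
      rintro _ ⟨i, rfl⟩
      exact ⟨y i, rfl⟩
    let e : K ≃ₐ[k] φ.fieldRange := AlgEquiv.ofInjectiveField φ
    let g : IntermediateField.adjoin k (Set.range fun i => φ (y i)) →+* K :=
      (e.symm : φ.fieldRange →+* K).comp (inclusion hle).toRingHom
    refine h2.ringHom_of_comp_eq g (RingHom.id _) g.injective ?_
    ext w
    change φ (e.symm (inclusion hle w)) = (w : RatFunc M)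
    have h3 : e (e.symm (inclusion hle w)) = inclusion hle w := e.apply_symm_apply _
    exact congrArg Subtype.val h3
  have hfd : FiniteDimensional K (RatFunc M) := by
    have h1 : Algebra.EssFiniteType K (RatFunc M) := Algebra.EssFiniteType.of_comp k K (RatFunc M)
    obtain ⟨s, hs⟩ := IntermediateField.fg_top K (RatFunc M)
    have h2 : FiniteDimensional K (IntermediateField.adjoin K (s : Set (RatFunc M))) :=
      IntermediateField.finiteDimensional_adjoin fun x _ => (halg.isAlgebraic x).isIntegral
    rw [hs] at h2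
    exact h2.equiv IntermediateField.topEquiv.toLinearEquiv
  -- the section
  intro N hN ω hω hreg hlog D0
  by_contra hne
  have hsec : IsSec k K n Bd {1} N 0 ω := by
    refine ⟨hω, fun v hv hb D hD => ?_, fun v hv hb D hD => ?_⟩
    · rcases hreg v hv hb D hD with h1 | h1
      · exact Or.inl h1
      · exact Or.inr ⟨1, Finset.mem_singleton_self _, one_ne_zero, by simpa using h1⟩
    · rcases hlog v hv hb D hD with h1 | h1
      · exact Or.inl h1
      · exact Or.inr ⟨1, Finset.mem_singleton_self _, one_ne_zero, by simpa using h1⟩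
  obtain ⟨E, hE⟩ : ∃ E : Fin n → Derivation k K K, ∀ i j, E i (y j) = if i = j then 1 else 0 := by
    choose E hE using fun i : Fin n => exists_der y hy (fun j => if i = j then (1 : K) else 0)
    exact ⟨E, hE⟩
  have hsec2 := pull k K (RatFunc M) n htr (fun y hy => fin_over' y hy) Bd {1} N 0 y E hy hE ω hsec
  set ω' : (Fin n → Derivation k (RatFunc M) (RatFunc M)) → RatFunc M := fun D =>
    (Matrix.of fun a b => D a (algebraMap K (RatFunc M) (y b))).det ^ N *
      algebraMap K (RatFunc M) (ω E) with hω'
  have hDom : ∀ (P : Place k (RatFunc M)) (f : RatFunc M),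
      Dom P (({1} : Finset K).image (algebraMap K (RatFunc M))) 0 f → P.Reg f := by
    rintro P f (h1 | ⟨s, -, -, h1⟩)
    · exact Or.inl h1
    · exact Or.inr (by simpa using h1)
  have hLS : LogSec k (RatFunc M) n N (BdUp Bd) ω' := by
    refine ⟨hsec2.1, fun P hP D hD => ?_, fun P hP hb D hD => ?_⟩
    · by_cases hb : BdUp Bd P
      · exact hDom P _ (hsec2.2.2 P hP hb D hD)
      · refine hDom P _ (hsec2.2.1 P hP hb D fun l f hf => ?_)
        by_cases hf0 : f = 0
        · rw [hf0, map_zero]; exact P.reg_zero
        · have h1 := P.reg_mul (hD l f) hf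
          rwa [div_mul_cancel₀ _ hf0] at h1
    · exact hDom P _ (hsec2.2.1 P hP hb D hD)
  -- the derivation
  have hcM : CharZero M := charZero_of_injective_algebraMap (algebraMap k M).injective
  obtain ⟨d0, hd0⟩ := exists_der (L := M) (fun _ : Unit => (RatFunc.X : RatFunc M)) htrX
    (fun _ => RatFunc.X)
  let δ : Derivation k (RatFunc M) (RatFunc M) := d0.restrictScalars k
  have hδX : δ RatFunc.X = RatFunc.X := hd0 ()
  have hδM : ∀ c : M, δ (algebraMap M (RatFunc M) c) = 0 := fun c => d0.map_algebraMap c
  have htop : (consts δ)⟮(RatFunc.X : RatFunc M)⟯ = ⊤ := by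
    rw [eq_top_iff]
    intro f _
    have hf : f ∈ M⟮(RatFunc.X : RatFunc M)⟯ := by rw [htopM]; exact mem_top
    induction hf using IntermediateField.adjoin_induction with
    | mem x hx =>
      rw [Set.mem_singleton_iff] at hx
      rw [hx]
      exact IntermediateField.mem_adjoin_simple_self _ _
    | algebraMap c =>
      exact (consts δ)⟮(RatFunc.X : RatFunc M)⟯.algebraMap_mem ⟨algebraMap M (RatFunc M) c, hδM c⟩
    | add x y _ _ hx hy => exact add_mem (hx mem_top) (hy mem_top)
    | inv x _ hx => exact inv_mem (hx mem_top)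
    | mul x y _ _ hx hy => exact mul_mem (hx mem_top) (hy mem_top)
  have hgood : ∀ P : Place k (RatFunc M), (∀ c, δ c = 0 → c ≠ 0 → P.ord c = 0) →
      0 ≤ P.ord RatFunc.X → ¬ BdUp Bd P := by
    rintro P h1 h2 ⟨v, e, hov, hb⟩
    let w : Place M (RatFunc M) :=
      { ord := P.ord
        ord_zero := P.ord_zero
        ord_mul := fun {f g} hf hg => P.ord_mul hf hg
        ord_add := fun {f g} hf hg hfg => P.ord_add hf hg hfg
        ord_const := fun {c} hc => h1 _ (hδM c) ((map_ne_zero _).2 hc)
        surj := P.surj }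
    exact hA w (Or.inr h2) v e hov.1 (fun f => hov.2 f) hb
  obtain ⟨D, hD, -, hneg⟩ := sec_const hR (Bd := BdUp Bd) δ RatFunc.X_ne_zero hδX htop
    fun P h1 h2 => hgood P h1 h2.ge
  have hz := hneg (fun P h1 h2 => hgood P h1 h2.le) N hN ω' hLS
  -- the form does not vanish
  choose E' hE' using fun i : Fin n => exists_der (L := k) (fun i => φ (y i)) hyb
    (fun j => if i = j then (1 : RatFunc M) else 0)
  obtain ⟨A, hA'⟩ := hD E'
  have h1 : ω' E' = 0 := by
    rw [← hA', hsec2.1, hz, mul_zero]
  have h2 : (Matrix.of fun a b => E' a (algebraMap K (RatFunc M) (y b))) = 1 := by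
    ext a b
    rw [Matrix.of_apply, Matrix.one_apply]
    exact hE' a b
  have h3 : ω' E' = algebraMap K (RatFunc M) (ω E) := by
    change (Matrix.of fun a b => E' a (algebraMap K (RatFunc M) (y b))).det ^ N *
      algebraMap K (RatFunc M) (ω E) = _
    rw [h2, Matrix.det_one, one_pow, one_mul]
  rw [h3, map_eq_zero] at h1
  apply hne
  have h4 : (fun i => ∑ j, (Matrix.of fun a b => D0 a (y b)) i j • E j) = D0 := by
    funext i
    apply der_ext y hy
    intro q
    have h0 : ∀ (t : Finset (Fin n)) (c : Fin n → K) (z : K),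
        (∑ l ∈ t, c l • E l) z = ∑ l ∈ t, c l * E l z := by
      intro t c z
      induction t using Finset.induction_on with
      | empty => simp
      | insert l t hl ih =>
        rw [Finset.sum_insert hl, Finset.sum_insert hl, Derivation.add_apply, ih]
        rfl
    rw [h0, Finset.sum_eq_single q]
    · rw [hE, if_pos rfl, mul_one]
      rfl
    · intro b _ hb
      rw [hE, if_neg hb, mul_zero]
    · intro h
      exact absurd (Finset.mem_univ _) h
  rw [← h4, hω, h1, mul_zero]

end Pool.Agent.Y199.NN
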