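import Pool.Agent.Y199.NN.Est
import Pool.Agent.Y199.NN.Farkas
import Pool.Agent.W619.PL.LDefs
import Pool.Agent.W602.GT.Sys

/-!
Logarithmic pluricanonical forms on nondegenerate complete intersections.
-/

set_option autoImplicit false

open FF Matrix MvPolynomial Pool.Agent.W619.PQ Pool.Agent.W619.PL

namespace Pool.Agent.Y199.NN

/-- The places whose centre is not on the open subset `G l ≠ 0` of the affine space, where `x` is
the generic point. -/
def Boundary {n : ℕ} {κ : Type} {k K : Type} [Field k] [Field K] [Algebra k K]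
    (G : κ → MvPolynomial (Fin n) k) (x : Fin n → K) (P : Place k K) : Prop :=
  (∃ i, ¬ P.Reg (x i)) ∨ ∃ l, 0 < P.ord (aeval x (G l))

variable {n m : ℕ} {ι κ : Type} [Fintype ι] [Fintype κ] [DecidableEq ι] {k K : Type}
  [Field k] [Field K] [Algebra k K]

omit [Fintype ι] [Fintype κ] [DecidableEq ι] in
theorem dsum_apply {τ : Type} (s : Finset τ) (c : τ → K) (D : τ → Derivation k K K) (z : K) :
    (∑ b ∈ s, c b • D b) z = ∑ b ∈ s, c b * D b z := by
  classical
  induction s using Finset.induction_on with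
  | empty => simp
  | insert b s hb ih =>
    rw [Finset.sum_insert hb, Finset.sum_insert hb, Derivation.add_apply, ih,
      Derivation.smul_apply, smul_eq_mul]

omit [Fintype ι] [Fintype κ] [DecidableEq ι] in
theorem aux_pow (A B Y : K) {π : K} (hπ0 : π ≠ 0) (N : ℕ) (S : ℤ) :
    A * (B * Y) ^ N = A * B ^ N * π ^ (-((N : ℤ) * S)) * (π ^ S * Y) ^ N := by
  have h4 : π ^ (-((N : ℤ) * S)) * (π ^ S) ^ N = 1 := by
    rw [← zpow_natCast (π ^ S) N, ← _root_.zpow_mul, ← zpow_add₀ hπ0, mul_comm S (N : ℤ),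
      neg_add_cancel, zpow_zero]
  rw [mul_pow, mul_pow]
  calc A * (B ^ N * Y ^ N) = A * (B ^ N * Y ^ N) * 1 := by rw [mul_one]
    _ = _ := by rw [← h4]; ring

/-- the exponent -/
def qexp {τ : Type} [Fintype τ] {N : ℕ} (c : τ → Fin N → (Fin n →₀ ℕ)) (i : Fin n) : ℕ :=
  ∑ j, ∑ l, c j l i

/-- the form -/
noncomputable def form (e : Fin m ⊕ ι ≃ Fin n) (G : κ → MvPolynomial (Fin n) k) (x : Fin n → K)
    (u : Matrix (Fin m ⊕ ι) ι K) (q : Fin n → ℕ) (N : ℕ) (D : Fin m → Derivation k K K) : K :=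
  (∏ i, x i ^ (q i - N)) * ((∏ l, (aeval x (G l))⁻¹) * (fromCols (dmat e x D) u).det) ^ N

omit [Fintype κ] in
theorem det_pluri (e : Fin m ⊕ ι ≃ Fin n) (x : Fin n → K) (u : Matrix (Fin m ⊕ ι) ι K)
    (A : Matrix (Fin m) (Fin m) K) (D : Fin m → Derivation k K K) :
    (fromCols (dmat e x (fun a => ∑ b, A a b • D b)) u).det =
      A.det * (fromCols (dmat e x D) u).det := by
  have h1 : dmat e x (fun a => ∑ b, A a b • D b) = dmat e x D * Aᵀ := by
    ext i a
    rw [Matrix.mul_apply]
    change (∑ b, A a b • D b) (x (e i)) = ∑ b, D b (x (e i)) * Aᵀ b a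
    rw [dsum_apply]
    refine Finset.sum_congr rfl fun b _ => ?_
    rw [Matrix.transpose_apply, mul_comm]
  have h2 : fromCols (dmat e x D * Aᵀ) u = fromCols (dmat e x D) u * fromBlocks Aᵀ 0 0 1 := by
    rw [← fromRows_fromCols_eq_fromBlocks, fromCols_mul_fromRows, mul_fromCols, mul_fromCols]
    ext i j
    rcases j with j | j <;> simp
  rw [h1, h2, det_mul, det_fromBlocks_zero₂₁, det_one, mul_one, det_transpose, mul_comm]

theorem form_pluri (e : Fin m ⊕ ι ≃ Fin n) (G : κ → MvPolynomial (Fin n) k) (x : Fin n → K)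
    (u : Matrix (Fin m ⊕ ι) ι K) (q : Fin n → ℕ) (N : ℕ) :
    IsPluriForm k K m N (form e G x u q N) := by
  intro A D
  unfold form
  rw [det_pluri]
  ring

section ex

variable {F : ι → MvPolynomial (Fin n) k} {G : κ → MvPolynomial (Fin n) k} {x : Fin n → K}

omit [Fintype κ] in
/-- dual vectors exist at the generic point -/
theorem exists_u [IsAlgClosed k] [Finite κ] (e : Fin m ⊕ ι ≃ Fin n)
    (hF : ∀ j, aeval x (F j) = 0) (hnc : ∀ a, NormalCrossingsAt F G a) :
    ∃ u : Matrix (Fin m ⊕ ι) ι K, jmat e F x * u = 1 := by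
  have hli := nc_transfer (E := K) F G 1 (fun a _ => hnc a) x (by simp) hF
  have h1 := hli.comp (Sum.inl : ι → ι ⊕ {l : κ // aeval x (G l) = 0}) Sum.inl_injective
  have h2 := h1.map' (scl (fun _ => (1 : K)) e)
    (LinearMap.ker_eq_bot.2 (scl_inj _ (fun _ => one_ne_zero) e))
  refine right_inv_field (jmat e F x) ?_
  refine Eq.mp (congrArg (fun v : ι → (Fin m ⊕ ι) → K => LinearIndependent K v) ?_) h2
  funext j i
  change 1 * aeval x (pderiv (e i) (F j)) = aeval x (pderiv (e i) (F j))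
  rw [one_mul]

/-- the form does not vanish -/
theorem det_ne [CharZero k] (e : Fin m ⊕ ι ≃ Fin n)
    (hgen : IntermediateField.adjoin k (Set.range x) = ⊤) (htr : Algebra.trdeg k K = m)
    (hF : ∀ j, aeval x (F j) = 0) (u : Matrix (Fin m ⊕ ι) ι K) (hu : jmat e F x * u = 1) :
    ∃ D : Fin m → Derivation k K K, (fromCols (dmat e x D) u).det ≠ 0 := by
  obtain ⟨t, ht⟩ := Pool.Agent.W602.GT.basis_of_trdeg htr
  choose D hD using fun a : Fin m => Pool.Agent.W602.GT.exists_der t ht
    (fun b => if a = b then (1 : K) else 0)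
  refine ⟨D, fun h0 => ?_⟩
  obtain ⟨v, hv0, hv⟩ := Matrix.exists_mulVec_eq_zero_iff.2 h0
  have hv1 : fromCols (dmat e x D) u *ᵥ v =
      dmat e x D *ᵥ (v ∘ Sum.inl) + u *ᵥ (v ∘ Sum.inr) := fromCols_mulVec _ _ _
  have hJ : jmat e F x * dmat e x D = 0 := by
    ext j a
    rw [jmat_dmat, hF, map_zero]
    rfl
  have h1 : (v ∘ Sum.inr : ι → K) = 0 := by
    have h2 : jmat e F x *ᵥ (fromCols (dmat e x D) u *ᵥ v) = 0 := by rw [hv, mulVec_zero]
    rw [hv1, mulVec_add, mulVec_mulVec, mulVec_mulVec, hJ, hu, zero_mulVec, one_mulVec,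
      zero_add] at h2
    exact h2
  have h2 : dmat e x D *ᵥ (v ∘ Sum.inl) = 0 := by
    rw [hv1, h1, mulVec_zero, add_zero] at hv
    exact hv
  have h3 : (∑ a, v (Sum.inl a) • D a) = 0 := by
    refine Pool.Agent.W602.GT.der_eq_zero _ (Set.range x) ?_ ?_
    · rw [hgen]
      exact ⟨fun z => isAlgebraic_algebraMap (⟨z, trivial⟩ : (⊤ : IntermediateField k K))⟩
    · rintro _ ⟨i, rfl⟩
      rw [dsum_apply]
      have h4 := congrFun h2 (e.symm i)
      rw [Matrix.mulVec, dotProduct] at h4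
      refine Eq.trans (Finset.sum_congr rfl fun a _ => ?_) h4
      rw [mul_comm]
      change D a (x i) * _ = D a (x (e (e.symm i))) * _
      rw [Equiv.apply_symm_apply]
      rfl
  apply hv0
  funext s
  rcases s with b | j
  · have h4 := congrArg (fun E : Derivation k K K => E (t b)) h3
    simp only [dsum_apply, Derivation.coe_zero, Pi.zero_apply] at h4
    rw [Pi.zero_apply, ← h4, Finset.sum_eq_single b]
    · rw [hD, if_pos rfl, mul_one]
    · intro a _ hab
      rw [hD, if_neg hab, mul_zero]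
    · simp
  · exact congrFun h1 j

/-- **Nonvanishing.** -/
theorem not_neg [IsAlgClosed k] [CharZero k] (hx : ∀ i, x i ≠ 0)
    (hgen : IntermediateField.adjoin k (Set.range x) = ⊤) (htr : Algebra.trdeg k K = m)
    (hm : m + Fintype.card ι = n) (hF : ∀ j, aeval x (F j) = 0) (hG : ∀ l, aeval x (G l) ≠ 0)
    (hnc : ∀ a, NormalCrossingsAt F G a) (hnd : NondegenerateAtInfinity F G)
    (hb : Below (Sum.elim F G)) : ¬ LogKodairaNeg k K m (Boundary G x) := by
  classical
  have e : Fin m ⊕ ι ≃ Fin n := Fintype.equivOfCardEq (by simp [hm])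
  obtain ⟨u, hu⟩ := exists_u (K := K) e hF hnc
  obtain ⟨N, c, hN, hc, hq⟩ := hb
  obtain ⟨D0, hD0⟩ := det_ne e hgen htr hF u hu
  intro hneg
  have hqN : ∀ i, N ≤ qexp c i := hq
  have hreg : ∀ (P : Place k K), (∀ i, P.Reg (x i)) → ∀ D : Fin m → Derivation k K K,
      (∀ a i, P.Reg (D a (x i))) → (∀ a l, P.red (aeval x (G l)) = 0 →
        P.Reg (D a (aeval x (G l)) * (aeval x (G l))⁻¹)) →
      P.Reg (form e G x u (qexp c) N D) := by
    intro P hxP D hD hDG
    exact P.reg_mul (reg_prod P _ _ fun i _ => reg_pow P (hxP i) _)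
      (reg_pow P (est_reg e P hxP hF hnc u hu D hD hDG) N)
  have h0 := hneg N hN (form e G x u (qexp c) N) (form_pluri e G x u (qexp c) N) (by
    intro P _ hP D hD
    unfold Boundary at hP
    push Not at hP
    have hxP : ∀ i, P.Reg (x i) := hP.1
    refine hreg P hxP D (fun a i => hD a (x i) (hxP i)) fun a l hl => ?_
    exfalso
    rw [P.red_eq_zero_iff (red_value0 P x hxP (G l)).1] at hl
    rcases hl with hl | hl
    · exact hG l hl
    · exact absurd hl (not_lt.2 (hP.2 l))) (by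
    intro P _ hP D hD
    by_cases hxP : ∀ i, P.Reg (x i)
    · refine hreg P hxP D (fun a i => ?_) fun a l _ => ?_
      · have h1 := P.reg_mul (hD a (x i)) (hxP i)
        rwa [div_mul_cancel₀ _ (hx i)] at h1
      · rw [← div_eq_mul_inv]
        exact hD a _
    · push Not at hxP
      obtain ⟨i0, hi0⟩ := hxP
      have hneg' : ∃ i, P.ord (x i) < 0 := by
        refine ⟨i0, ?_⟩
        by_contra h1
        push Not at h1
        exact hi0 (Or.inr h1)
      obtain ⟨π, hπ0, hπ⟩ := P.surj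
      obtain ⟨h, h', hh, hh', hR⟩ := est_log (F := F) (G := G) e P hx hneg' hπ0 hπ hF hG hnd u hu
        D hD
      set Y : K := (∏ i, x i)⁻¹ * ((∏ l, (aeval x (G l))⁻¹) * (fromCols (dmat e x D) u).det)
        with hY
      have hX0 : (∏ i, x i) ≠ 0 := Finset.prod_ne_zero_iff.2 fun i _ => hx i
      have h1 : form e G x u (qexp c) N D = ((∏ i, x i ^ (qexp c i)) *
          π ^ (-((N : ℤ) * (∑ j, h j + ∑ l, h' l)))) * (π ^ (∑ j, h j + ∑ l, h' l) * Y) ^ N := by
        have h2 : ∏ i, x i ^ (qexp c i) = (∏ i, x i ^ (qexp c i - N)) * (∏ i, x i) ^ N := by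
          rw [← Finset.prod_pow, ← Finset.prod_mul_distrib]
          refine Finset.prod_congr rfl fun i _ => ?_
          rw [← pow_add, Nat.sub_add_cancel (hqN i)]
        have h3 : (∏ l, (aeval x (G l))⁻¹) * (fromCols (dmat e x D) u).det =
            (∏ i, x i) * Y := by
          rw [hY, ← mul_assoc, mul_inv_cancel₀ hX0, one_mul]
        unfold form
        rw [h3, h2]
        exact aux_pow _ _ _ hπ0 N _
      rw [h1]
      refine P.reg_mul ?_ (reg_pow P hR N)
      right
      have hne : (∏ i, x i ^ (qexp c i)) ≠ 0 :=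
        Finset.prod_ne_zero_iff.2 fun i _ => pow_ne_zero _ (hx i)
      rw [P.ord_mul hne (zpow_ne_zero _ hπ0), P.ord_zpow, hπ, mul_one,
        ord_prod' P _ _ fun i _ => pow_ne_zero _ (hx i)]
      have h2 : ∑ i, P.ord (x i ^ (qexp c i)) =
          ∑ j, ∑ l, wt (fun i => P.ord (x i)) (c j l) := by
        have h3 : ∀ i, P.ord (x i ^ (qexp c i)) = ∑ j, ∑ l, P.ord (x i) * (c j l i : ℤ) := by
          intro i
          rw [P.ord_pow]
          unfold qexp
          push_cast
          rw [mul_comm, Finset.mul_sum]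
          refine Finset.sum_congr rfl fun j _ => ?_
          rw [Finset.mul_sum]
        rw [Finset.sum_congr rfl fun i _ => h3 i, Finset.sum_comm]
        refine Finset.sum_congr rfl fun j _ => ?_
        rw [Finset.sum_comm]
        rfl
      rw [h2, Fintype.sum_sum_type]
      have h4 : ∀ j : ι, (N : ℤ) * h j ≤ ∑ l, wt (fun i => P.ord (x i)) (c (Sum.inl j) l) := by
        intro j
        have h5 : ∑ _l : Fin N, h j ≤ ∑ l, wt (fun i => P.ord (x i)) (c (Sum.inl j) l) :=
          Finset.sum_le_sum fun l _ => hh j _ (hc (Sum.inl j) l)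
        simpa using h5
      have h5 : ∀ j : κ, (N : ℤ) * h' j ≤ ∑ l, wt (fun i => P.ord (x i)) (c (Sum.inr j) l) := by
        intro j
        have h5 : ∑ _l : Fin N, h' j ≤ ∑ l, wt (fun i => P.ord (x i)) (c (Sum.inr j) l) :=
          Finset.sum_le_sum fun l _ => hh' j _ (hc (Sum.inr j) l)
        simpa using h5
      have h6 := Finset.sum_le_sum fun j (_ : j ∈ (Finset.univ : Finset ι)) => h4 j
      have h7 := Finset.sum_le_sum fun j (_ : j ∈ (Finset.univ : Finset κ)) => h5 j
      rw [← Finset.mul_sum] at h6 h7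
      rw [mul_add]
      linarith) D0
  unfold form at h0
  rw [mul_eq_zero] at h0
  rcases h0 with h0 | h0
  · exact Finset.prod_ne_zero_iff.2 (fun i _ => pow_ne_zero _ (hx i)) h0
  · have h1 := eq_zero_of_pow_eq_zero h0
    rcases mul_eq_zero.1 h1 with h2 | h2
    · exact Finset.prod_ne_zero_iff.2 (fun l _ => inv_ne_zero (hG l)) h2
    · exact hD0 h2

end ex

end Pool.Agent.Y199.NN
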