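import Mathlib

/-!
Normal crossings of a family of hypersurfaces, and points over extension fields.
-/

set_option autoImplicit false

open MvPolynomial

namespace Pool.Agent.Y199.NN

theorem transfer {k E : Type} [Field k] [IsAlgClosed k] [Field E] [Algebra k E] {σ : Type}
    [Finite σ] (T : Set (MvPolynomial σ k)) (g : MvPolynomial σ k) (a : σ → E)
    (hT : ∀ f ∈ T, aeval a f = 0) (hg : aeval a g ≠ 0) :
    ∃ b : σ → k, (∀ f ∈ T, eval b f = 0) ∧ eval b g ≠ 0 := by
  by_contra hcon
  push Not at hcon
  have h1 : g ∈ (Ideal.span T).radical := by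
    rw [← vanishingIdeal_zeroLocus_eq_radical (K := k) (Ideal.span T), mem_vanishingIdeal_iff]
    intro b hb
    rw [zeroLocus_span] at hb
    rw [aeval_eq_eval]
    refine hcon b fun f hf => ?_
    have := hb f hf
    rwa [aeval_eq_eval] at this
  obtain ⟨m, hm⟩ := h1
  have h2 : ∀ f ∈ Ideal.span T, aeval a f = 0 := by
    intro f hf
    have h3 : Ideal.span T ≤ RingHom.ker (aeval a : MvPolynomial σ k →ₐ[k] E) := by
      rw [Ideal.span_le]
      intro f hf
      exact hT f hf
    exact h3 hf
  have h3 := h2 _ hm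
  rw [map_pow] at h3
  exact hg (eq_zero_of_pow_eq_zero h3)

variable {n : ℕ} {k : Type} [Field k]

/-- The gradient of `F` at the point `a`. -/
noncomputable def grad (F : MvPolynomial (Fin n) k) (a : Fin n → k) : Fin n → k :=
  fun i => eval a (pderiv i F)

/-- If `a` is a common zero of the `F j` then the gradients at `a` of all `F j`, and of those `G l`
which vanish at `a`, are linearly independent. -/
def NormalCrossingsAt {ι κ : Type} (F : ι → MvPolynomial (Fin n) k)
    (G : κ → MvPolynomial (Fin n) k) (a : Fin n → k) : Prop :=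
  (∀ j, eval a (F j) = 0) → LinearIndependent k (Sum.elim (fun j : ι => grad (F j) a)
    (fun l : {l : κ // eval a (G l) = 0} => grad (G l.1) a))

/-- the same for points over extension fields -/
theorem nc_transfer [IsAlgClosed k] {E : Type} [Field E] [Algebra k E] {ι κ : Type} [Finite ι]
    [Finite κ] (F : ι → MvPolynomial (Fin n) k) (G : κ → MvPolynomial (Fin n) k)
    (g : MvPolynomial (Fin n) k)
    (h : ∀ a : Fin n → k, eval a g ≠ 0 → NormalCrossingsAt F G a) (a : Fin n → E)
    (hg : aeval a g ≠ 0) (hF : ∀ j, aeval a (F j) = 0) :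
    LinearIndependent E (Sum.elim (fun (j : ι) (i : Fin n) => aeval a (pderiv i (F j)))
      (fun (l : {l : κ // aeval a (G l) = 0}) (i : Fin n) => aeval a (pderiv i (G l.1)))) := by
  classical
  have := Fintype.ofFinite ι
  have := Fintype.ofFinite κ
  by_contra hdep
  rw [Fintype.not_linearIndependent_iff] at hdep
  obtain ⟨c, hc, t0, ht0⟩ := hdep
  let S := {l : κ // aeval a (G l) = 0}
  let σ := Fin n ⊕ (ι ⊕ S)
  let Hf : ι ⊕ S → MvPolynomial (Fin n) k := Sum.elim F (fun l : S => G l.1)
  let rn : MvPolynomial (Fin n) k →ₐ[k] MvPolynomial σ k := rename Sum.inl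
  let A : σ → E := Sum.elim a c
  have hren : ∀ f : MvPolynomial (Fin n) k, aeval A (rn f) = aeval a f := by
    intro f
    change aeval A (rename Sum.inl f) = _
    rw [aeval_rename]
    rfl
  have hsumE : ∀ i, ∑ t, c t * aeval a (pderiv i (Hf t)) = 0 := by
    intro i
    have h1 := congrFun hc i
    rw [Finset.sum_apply] at h1
    simp only [Pi.smul_apply, smul_eq_mul, Pi.zero_apply] at h1
    refine Eq.trans (Finset.sum_congr rfl fun t _ => ?_) h1
    rcases t with t | t <;> rfl
  obtain ⟨b, hb, hb2⟩ := transfer (E := E)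
    (Set.range (fun t => rn (Hf t)) ∪
      Set.range (fun i : Fin n => ∑ t, X (Sum.inr t) * rn (pderiv i (Hf t))))
    (rn g * X (Sum.inr t0)) A (by
      rintro f (⟨t, rfl⟩ | ⟨i, rfl⟩)
      · change aeval A (rn (Hf t)) = 0
        rw [hren]
        rcases t with t | t
        · exact hF t
        · exact t.2
      · change aeval A (∑ t, X (Sum.inr t) * rn (pderiv i (Hf t))) = 0
        rw [map_sum]
        refine Eq.trans (Finset.sum_congr rfl fun t _ => ?_) (hsumE i)
        rw [map_mul, aeval_X, hren]
        rfl) (by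
      rw [map_mul, hren, aeval_X]
      exact mul_ne_zero hg ht0)
  let b1 : Fin n → k := fun i => b (Sum.inl i)
  have hrenk : ∀ f : MvPolynomial (Fin n) k, eval b (rn f) = eval b1 f := by
    intro f
    change eval b (rename Sum.inl f) = _
    rw [eval_rename]
    rfl
  rw [map_mul, hrenk, eval_X] at hb2
  have hH : ∀ t, eval b1 (Hf t) = 0 := by
    intro t
    rw [← hrenk]
    exact hb _ (Or.inl ⟨t, rfl⟩)
  have h1 := h b1 (left_ne_zero_of_mul hb2) (fun j => hH (Sum.inl j))
  let φ : ι ⊕ S → ι ⊕ {l : κ // eval b1 (G l) = 0} :=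
    Sum.map id (fun l => ⟨l.1, hH (Sum.inr l)⟩)
  have hφ : Function.Injective φ := by
    refine Function.Injective.sumMap Function.injective_id ?_
    intro l l' hl
    exact Subtype.ext (congrArg (fun z => z.1) hl)
  have h2 := h1.comp φ hφ
  rw [Fintype.linearIndependent_iff] at h2
  have h3 := h2 (fun t => b (Sum.inr t)) (by
    funext i
    have h4 : eval b (∑ t, X (Sum.inr t) * rn (pderiv i (Hf t))) = 0 := hb _ (Or.inr ⟨i, rfl⟩)
    rw [map_sum] at h4
    rw [Finset.sum_apply, Pi.zero_apply]
    refine Eq.trans (Finset.sum_congr rfl fun t _ => ?_) h4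
    rw [map_mul, eval_X, hrenk]
    rcases t with t | t <;> rfl) t0
  exact right_ne_zero_of_mul hb2 h3

end Pool.Agent.Y199.NN
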