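import Pool.Agent.Y199.NN.Init
import Pool.Agent.Y199.NN.Null

/-!
The residue form of a nondegenerate complete intersection at the places of the function field.
-/

set_option autoImplicit false

open FF Matrix MvPolynomial

namespace Pool.Agent.Y199.NN

section der

variable {n : ℕ} {k K : Type} [Field k] [Field K] [Algebra k K]

theorem der_aeval (D : Derivation k K K) (x : Fin n → K) (F : MvPolynomial (Fin n) k) :
    D (aeval x F) = ∑ i, aeval x (pderiv i F) * D (x i) := by
  classical
  induction F using MvPolynomial.induction_on with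
  | C c =>
    rw [aeval_C, D.map_algebraMap]
    symm
    refine Finset.sum_eq_zero fun i _ => ?_
    rw [pderiv_C, map_zero, zero_mul]
  | add f g hf hg =>
    rw [map_add, map_add, hf, hg, ← Finset.sum_add_distrib]
    refine Finset.sum_congr rfl fun i _ => ?_
    rw [map_add, map_add, add_mul]
  | mul_X f j hf =>
    rw [map_mul, aeval_X, D.leibniz, hf, smul_eq_mul, smul_eq_mul, Finset.mul_sum]
    have h1 : ∀ i, aeval x (pderiv i (f * X j)) * D (x i) =
        x j * (aeval x (pderiv i f) * D (x i)) + (if i = j then aeval x f * D (x j) else 0) := by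
      intro i
      rw [Derivation.leibniz, smul_eq_mul, smul_eq_mul, map_add, map_mul, map_mul, pderiv_X,
        aeval_X]
      by_cases hij : i = j
      · subst hij
        rw [Pi.single_eq_same, if_pos rfl, map_one]
        ring
      · rw [Pi.single_eq_of_ne (Ne.symm hij), if_neg hij, map_zero]
        ring
    rw [Finset.sum_congr rfl fun i _ => h1 i, Finset.sum_add_distrib, Finset.sum_ite_eq' _ j,
      if_pos (Finset.mem_univ j)]
    ring

end der

variable {n m : ℕ} {ι κ : Type} [Fintype ι] [Fintype κ] [DecidableEq ι] {k K : Type}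
  [Field k] [Field K] [Algebra k K]

/-- the derivatives of the coordinates -/
def dmat (e : Fin m ⊕ ι ≃ Fin n) (x : Fin n → K) (D : Fin m → Derivation k K K) :
    Matrix (Fin m ⊕ ι) (Fin m) K := Matrix.of fun i a => D a (x (e i))

/-- the Jacobian matrix -/
noncomputable def jmat {τ : Type} (e : Fin m ⊕ ι ≃ Fin n) (F : τ → MvPolynomial (Fin n) k)
    (x : Fin n → K) : Matrix τ (Fin m ⊕ ι) K := Matrix.of fun j i => aeval x (pderiv (e i) (F j))

omit [DecidableEq ι] in
theorem jmat_dmat {τ : Type} (e : Fin m ⊕ ι ≃ Fin n) (F : τ → MvPolynomial (Fin n) k)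
    (x : Fin n → K) (D : Fin m → Derivation k K K) (j : τ) (a : Fin m) :
    (jmat e F x * dmat e x D) j a = D a (aeval x (F j)) := by
  rw [der_aeval, Matrix.mul_apply, ← Equiv.sum_comp e]
  rfl

/-- a rescaled pull-back of coordinates -/
def scl {E s : Type*} [Field E] (c : s → E) (e : s → Fin n) : (Fin n → E) →ₗ[E] (s → E) where
  toFun v := fun i => c i * v (e i)
  map_add' v w := by
    funext i
    simp only [Pi.add_apply]
    ring
  map_smul' t v := by
    funext i
    simp only [Pi.smul_apply, smul_eq_mul, RingHom.id_apply]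
    ring

theorem scl_inj {E s : Type*} [Field E] (c : s → E) (hc : ∀ i, c i ≠ 0) (e : s ≃ Fin n) :
    Function.Injective (scl c e) := by
  intro v w h
  funext i
  have h1 := congrFun h (e.symm i)
  change c (e.symm i) * v (e (e.symm i)) = c (e.symm i) * w (e (e.symm i)) at h1
  rw [Equiv.apply_symm_apply] at h1
  exact mul_left_cancel₀ (hc _) h1

variable {F : ι → MvPolynomial (Fin n) k} {G : κ → MvPolynomial (Fin n) k} {x : Fin n → K}

/-- **Estimate at a place with centre in the affine space.** -/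
theorem est_reg [IsAlgClosed k] (e : Fin m ⊕ ι ≃ Fin n) (P : Place k K) (hx : ∀ i, P.Reg (x i))
    (hF : ∀ j, aeval x (F j) = 0) (hnc : ∀ a, NormalCrossingsAt F G a)
    (u : Matrix (Fin m ⊕ ι) ι K) (hu : jmat e F x * u = 1) (D : Fin m → Derivation k K K)
    (hD : ∀ a i, P.Reg (D a (x i)))
    (hDG : ∀ a l, P.red (aeval x (G l)) = 0 →
      P.Reg (D a (aeval x (G l)) * (aeval x (G l))⁻¹)) :
    P.Reg ((∏ l, (aeval x (G l))⁻¹) * (fromCols (dmat e x D) u).det) := by
  classical
  let ξ : Fin n → P.RF := fun i => P.red (x i)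
  have hval : ∀ f : MvPolynomial (Fin n) k, P.Reg (aeval x f) ∧ P.red (aeval x f) = aeval ξ f :=
    fun f => red_value0 P x hx f
  have hξF : ∀ j, aeval ξ (F j) = 0 := by
    intro j
    rw [← (hval (F j)).2, hF, P.red_zero]
  let S := {l : κ // aeval ξ (G l) = 0}
  have hli := nc_transfer (E := P.RF) F G 1 (fun a _ => hnc a) ξ (by simp) hξF
  have hli2 := hli.map' (scl (fun _ => (1 : P.RF)) e)
    (LinearMap.ker_eq_bot.2 (scl_inj _ (fun _ => one_ne_zero) e))
  have hcore := core P (dmat e x D) (fun i a => hD a (e i)) (jmat e F x)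
    (jmat e (fun l : S => G l.1) x) (fun j i => (hval _).1) (fun j i => (hval _).1) (by
      refine Eq.mp (congrArg (fun v : ι ⊕ S → (Fin m ⊕ ι) → P.RF =>
        LinearIndependent P.RF v) ?_) hli2
      funext t i
      rcases t with t | t
      · change 1 * aeval ξ (pderiv (e i) (F t)) = P.red (aeval x (pderiv (e i) (F t)))
        rw [one_mul, (hval _).2]
      · change 1 * aeval ξ (pderiv (e i) (G t.1)) = P.red (aeval x (pderiv (e i) (G t.1)))
        rw [one_mul, (hval _).2]) (by
      ext j a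
      rw [jmat_dmat, hF, map_zero]
      rfl) (fun l : S => aeval x (G l.1)) (fun l a => by
      rw [jmat_dmat]
      exact hDG a l.1 (by rw [(hval _).2]; exact l.2)) u hu
  have hsplit : ∏ l, (aeval x (G l))⁻¹ =
      (∏ l : S, (aeval x (G l.1))⁻¹) *
        ∏ l : {l : κ // ¬ aeval ξ (G l) = 0}, (aeval x (G l.1))⁻¹ :=
    (Fintype.prod_subtype_mul_prod_subtype (fun l : κ => aeval ξ (G l) = 0)
      (fun l => (aeval x (G l))⁻¹)).symm
  rw [hsplit, mul_comm (∏ l : S, _), mul_assoc]
  refine P.reg_mul (reg_prod P _ _ fun l _ => ?_) hcore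
  have h1 := hval (G l.1)
  have h2 : P.red (aeval x (G l.1)) ≠ 0 := by
    rw [h1.2]; exact l.2
  have h3 : ¬ (aeval x (G l.1) = 0 ∨ 0 < P.ord (aeval x (G l.1))) := by
    rw [← P.red_eq_zero_iff h1.1]
    exact h2
  push Not at h3
  right
  rw [P.ord_inv]
  linarith [h3.2]

/-- The initial forms with respect to weights which are not all nonnegative have normal crossings
in the torus. -/
def NondegenerateAtInfinity {ι κ : Type} (F : ι → MvPolynomial (Fin n) k)
    (G : κ → MvPolynomial (Fin n) k) : Prop :=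
  ∀ α : Fin n → ℤ, (∃ i, α i < 0) → ∀ a : Fin n → k, (∀ i, a i ≠ 0) →
    NormalCrossingsAt (fun j => initForm α (F j)) (fun l => initForm α (G l)) a

/-- **Estimate at a place with centre at infinity.** -/
theorem est_log [IsAlgClosed k] (e : Fin m ⊕ ι ≃ Fin n) (P : Place k K) (hx : ∀ i, x i ≠ 0)
    (hneg : ∃ i, P.ord (x i) < 0) {π : K} (hπ0 : π ≠ 0) (hπ : P.ord π = 1)
    (hF : ∀ j, aeval x (F j) = 0) (hG : ∀ l, aeval x (G l) ≠ 0)
    (hnd : NondegenerateAtInfinity F G)
    (u : Matrix (Fin m ⊕ ι) ι K) (hu : jmat e F x * u = 1) (D : Fin m → Derivation k K K)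
    (hD : ∀ a z, P.Reg (D a z / z)) :
    ∃ (h : ι → ℤ) (h' : κ → ℤ),
      (∀ j, ∀ a ∈ (F j).support, h j ≤ wt (fun i => P.ord (x i)) a) ∧
      (∀ l, ∀ a ∈ (G l).support, h' l ≤ wt (fun i => P.ord (x i)) a) ∧
      P.Reg (π ^ (∑ j, h j + ∑ l, h' l) * ((∏ i, x i)⁻¹ *
        ((∏ l, (aeval x (G l))⁻¹) * (fromCols (dmat e x D) u).det))) := by
  classical
  set α : Fin n → ℤ := fun i => P.ord (x i) with hα
  choose h hh hhI using fun j => exists_min α (F j)
  choose h' hh' hhI' using fun l => exists_min α (G l)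
  refine ⟨h, h', hh, hh', ?_⟩
  let ξ : Fin n → P.RF := fun i => P.red (un P π (x i))
  have hξ0 : ∀ i, ξ i ≠ 0 := fun i =>
    P.red_ne_zero (un_ne P hπ0 (hx i)) (ord_un P hπ0 hπ (hx i))
  have hval : ∀ (f : MvPolynomial (Fin n) k) (c : ℤ), (∀ a ∈ f.support, c ≤ wt α a) →
      P.Reg (aeval x f * π ^ (-c)) ∧ P.red (aeval x f * π ^ (-c)) = aeval ξ (part α c f) :=
    fun f c hc => red_value P hπ0 hπ x hx f c hc
  have hval' : ∀ (f : MvPolynomial (Fin n) k) (c : ℤ) (i : Fin n), (∀ a ∈ f.support, c ≤ wt α a) →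
      P.Reg (x i * aeval x (pderiv i f) * π ^ (-c)) ∧
        P.red (x i * aeval x (pderiv i f) * π ^ (-c)) =
          ξ i * aeval ξ (pderiv i (part α c f)) := by
    intro f c i hc
    have h1 := hval (X i * pderiv i f) c (fun a ha => hc a (support_euler f i ha))
    rw [part_euler, map_mul, map_mul, aeval_X, aeval_X] at h1
    exact h1
  let Fi : ι → MvPolynomial (Fin n) k := fun j => initForm α (F j)
  let Gi : κ → MvPolynomial (Fin n) k := fun l => initForm α (G l)
  have hξF : ∀ j, aeval ξ (Fi j) = 0 := by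
    intro j
    change aeval ξ (initForm α (F j)) = 0
    rw [hhI j, ← (hval (F j) (h j) (hh j)).2, hF, zero_mul, P.red_zero]
  let S := {l : κ // aeval ξ (Gi l) = 0}
  have hprod : aeval ξ (∏ i, (X i : MvPolynomial (Fin n) k)) ≠ 0 := by
    rw [map_prod]
    refine Finset.prod_ne_zero_iff.2 fun i _ => ?_
    rw [aeval_X]
    exact hξ0 i
  have hli := nc_transfer (E := P.RF) Fi Gi (∏ i, X i) (fun a ha => hnd α hneg a (by
    intro i hi
    apply ha
    rw [map_prod]
    exact Finset.prod_eq_zero (Finset.mem_univ i) (by rw [eval_X]; exact hi))) ξ hprod hξF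
  have hli2 := hli.map' (scl (fun i => ξ (e i)) e)
    (LinearMap.ker_eq_bot.2 (scl_inj _ (fun i => hξ0 (e i)) e))
  -- logarithmic derivatives
  let d' : Matrix (Fin m ⊕ ι) (Fin m) K := Matrix.of fun i a => D a (x (e i)) / x (e i)
  have hdd : diagonal (fun i => x (e i)) * d' = dmat e x D := by
    ext i a
    rw [diagonal_mul]
    change x (e i) * (D a (x (e i)) / x (e i)) = D a (x (e i))
    rw [mul_div_cancel₀]
    exact hx _
  let N : Matrix ι (Fin m ⊕ ι) K := diagonal (fun j => π ^ (-h j)) * (jmat e F x *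
    diagonal (fun i => x (e i)))
  have hN : ∀ j i, N j i = x (e i) * aeval x (pderiv (e i) (F j)) * π ^ (-h j) := by
    intro j i
    change (diagonal (fun j => π ^ (-h j)) * (jmat e F x *
      diagonal (fun i => x (e i)))) j i = _
    rw [diagonal_mul, mul_diagonal]
    change π ^ (-h j) * (aeval x (pderiv (e i) (F j)) * x (e i)) = _
    ring
  let W : Matrix S (Fin m ⊕ ι) K := diagonal (fun l : S => π ^ (-h' l.1)) *
    (jmat e (fun l : S => G l.1) x * diagonal (fun i => x (e i)))
  have hW : ∀ l i, W l i = x (e i) * aeval x (pderiv (e i) (G l.1)) * π ^ (-h' l.1) := by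
    intro l i
    change (diagonal (fun l : S => π ^ (-h' l.1)) *
      (jmat e (fun l : S => G l.1) x * diagonal (fun i => x (e i)))) l i = _
    rw [diagonal_mul, mul_diagonal]
    change π ^ (-h' l.1) * (aeval x (pderiv (e i) (G l.1)) * x (e i)) = _
    ring
  let g : κ → K := fun l => aeval x (G l) * π ^ (-h' l)
  let u' : Matrix (Fin m ⊕ ι) ι K := diagonal (fun i => (x (e i))⁻¹) * u
  let u'' : Matrix (Fin m ⊕ ι) ι K := u' * diagonal (fun j => π ^ (h j))
  have hxx : diagonal (fun i => x (e i)) * u' = u := by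
    change diagonal (fun i => x (e i)) * (diagonal (fun i => (x (e i))⁻¹) * u) = u
    rw [← Matrix.mul_assoc, diagonal_mul_diagonal]
    have h1 : (fun i => x (e i) * (x (e i))⁻¹) = fun _ => 1 := by
      funext i
      exact mul_inv_cancel₀ (hx _)
    rw [h1, diagonal_one, Matrix.one_mul]
  have hNu : N * u'' = 1 := by
    change diagonal (fun j => π ^ (-h j)) * (jmat e F x * diagonal (fun i => x (e i))) *
      (u' * diagonal (fun j => π ^ (h j))) = 1
    rw [Matrix.mul_assoc, ← Matrix.mul_assoc (jmat e F x * _), Matrix.mul_assoc (jmat e F x), hxx,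
      hu, Matrix.one_mul, diagonal_mul_diagonal]
    have h1 : (fun j => π ^ (-h j) * π ^ (h j)) = fun _ => (1 : K) := by
      funext j
      rw [← zpow_add₀ hπ0, neg_add_cancel, zpow_zero]
    rw [h1, diagonal_one]
  have hNd : N * d' = 0 := by
    change diagonal (fun j => π ^ (-h j)) * (jmat e F x * diagonal (fun i => x (e i))) * d' = 0
    rw [Matrix.mul_assoc, Matrix.mul_assoc, hdd]
    have h1 : jmat e F x * dmat e x D = 0 := by
      ext j a
      rw [jmat_dmat, hF, map_zero]
      rfl
    rw [h1, Matrix.mul_zero]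
  have hcore := core P d' (fun i a => hD a (x (e i))) N W
    (fun j i => by rw [hN]; exact (hval' (F j) (h j) (e i) (hh j)).1)
    (fun l i => by rw [hW]; exact (hval' (G l.1) (h' l.1) (e i) (hh' l.1)).1) (by
      refine Eq.mp (congrArg (fun v : ι ⊕ S → (Fin m ⊕ ι) → P.RF =>
        LinearIndependent P.RF v) ?_) hli2
      funext t i
      rcases t with t | t
      · change ξ (e i) * aeval ξ (pderiv (e i) (initForm α (F t))) = P.red (N t i)
        rw [hN, (hval' (F t) (h t) (e i) (hh t)).2, hhI t]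
      · change ξ (e i) * aeval ξ (pderiv (e i) (initForm α (G t.1))) = P.red (W t i)
        rw [hW, (hval' (G t.1) (h' t.1) (e i) (hh' t.1)).2, hhI' t.1]) hNd
    (fun l : S => g l.1) (fun l a => by
      have h1 : (W * d') l a = π ^ (-h' l.1) * D a (aeval x (G l.1)) := by
        change (diagonal (fun l : S => π ^ (-h' l.1)) *
          (jmat e (fun l : S => G l.1) x * diagonal (fun i => x (e i))) * d') l a = _
        rw [Matrix.mul_assoc, diagonal_mul, Matrix.mul_assoc, hdd, jmat_dmat]
      rw [h1]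
      change P.Reg (π ^ (-h' l.1) * D a (aeval x (G l.1)) *
        (aeval x (G l.1) * π ^ (-h' l.1))⁻¹)
      have h2 : π ^ (-h' l.1) * D a (aeval x (G l.1)) * (aeval x (G l.1) * π ^ (-h' l.1))⁻¹ =
          D a (aeval x (G l.1)) / aeval x (G l.1) := by
        have := zpow_ne_zero (-h' l.1) hπ0
        have := hG l.1
        field_simp
      rw [h2]
      exact hD a _) u'' hNu
  have hsplit : ∏ l, (g l)⁻¹ =
      (∏ l : S, (g l.1)⁻¹) * ∏ l : {l : κ // ¬ aeval ξ (Gi l) = 0}, (g l.1)⁻¹ :=
    (Fintype.prod_subtype_mul_prod_subtype (fun l : κ => aeval ξ (Gi l) = 0)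
      (fun l => (g l)⁻¹)).symm
  have h3 : P.Reg ((∏ l, (g l)⁻¹) * (fromCols d' u'').det) := by
    rw [hsplit, mul_comm (∏ l : S, _), mul_assoc]
    refine P.reg_mul (reg_prod P _ _ fun l _ => ?_) hcore
    have h1 := hval (G l.1) (h' l.1) (hh' l.1)
    have h2 : P.red (g l.1) ≠ 0 := by
      change P.red (aeval x (G l.1) * π ^ (-h' l.1)) ≠ 0
      rw [h1.2, ← hhI' l.1]
      exact l.2
    have h4 : ¬ (g l.1 = 0 ∨ 0 < P.ord (g l.1)) := by
      rw [← P.red_eq_zero_iff h1.1]
      exact h2
    push Not at h4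
    right
    rw [P.ord_inv]
    linarith [h4.2]
  have h4 : (fromCols d' u'').det = (∏ j, π ^ (h j)) * (fromCols d' u').det :=
    det_rescale d' u' _
  have h5 : (fromCols (dmat e x D) u).det = (∏ i, x i) * (fromCols d' u').det := by
    have h6 : fromCols (dmat e x D) u = diagonal (fun i => x (e i)) * fromCols d' u' := by
      rw [mul_fromCols, hdd, hxx]
    rw [h6, det_mul, det_diagonal, Equiv.prod_comp e]
  have h6 : ∏ l, (g l)⁻¹ = π ^ (∑ l, h' l) * ∏ l, (aeval x (G l))⁻¹ := by
    have h7 : ∀ s : Finset κ, ∏ l ∈ s, (g l)⁻¹ =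
        π ^ (∑ l ∈ s, h' l) * ∏ l ∈ s, (aeval x (G l))⁻¹ := by
      intro s
      induction s using Finset.induction_on with
      | empty => simp
      | insert l s hl ih =>
        rw [Finset.prod_insert hl, Finset.sum_insert hl, Finset.prod_insert hl, ih,
          zpow_add₀ hπ0]
        change (aeval x (G l) * π ^ (-h' l))⁻¹ * _ = _
        rw [mul_inv, ← _root_.zpow_neg, neg_neg]
        ring
    exact h7 _
  have h7 : ∏ j, π ^ (h j) = π ^ (∑ j, h j) := by
    have h8 : ∀ s : Finset ι, ∏ j ∈ s, π ^ (h j) = π ^ (∑ j ∈ s, h j) := by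
      intro s
      induction s using Finset.induction_on with
      | empty => simp
      | insert j s hj ih => rw [Finset.prod_insert hj, Finset.sum_insert hj, ih, zpow_add₀ hπ0]
    exact h8 _
  have hX0 : (∏ i, x i) ≠ 0 := Finset.prod_ne_zero_iff.2 fun i _ => hx i
  have h8 : π ^ (∑ j, h j + ∑ l, h' l) * ((∏ i, x i)⁻¹ *
        ((∏ l, (aeval x (G l))⁻¹) * (fromCols (dmat e x D) u).det)) =
      (∏ l, (g l)⁻¹) * (fromCols d' u'').det := by
    rw [h4, h5, h6, h7, zpow_add₀ hπ0]
    field_simp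
  rw [h8]
  exact h3

end Pool.Agent.Y199.NN
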