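import Pool.Agent.Y199.NN.Emb
import Pool.Agent.Y199.NN.Est
import Pool.Agent.W602.GT.Dich

/-!
The generic point of a component of a smooth complete intersection.
-/

set_option autoImplicit false

open Cardinal

namespace Pool.Agent.Y199.NN

variable {k : Type} [Field k]

/-- the dimension of a kernel -/
theorem card_add_card_le {E ι J : Type} [Field E] [Fintype ι] [Fintype J] {n : ℕ}
    (M : ι → Fin n → E) (hM : LinearIndependent E M) (V : J → Fin n → E)
    (hV : LinearIndependent E V) (h : ∀ j a, ∑ i, M j i * V a i = 0) :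
    Fintype.card J + Fintype.card ι ≤ n := by
  classical
  let N : Matrix ι (Fin n) E := Matrix.of M
  have hrank : N.rank = Fintype.card ι := LinearIndependent.rank_matrix hM
  have hker : ∀ a, V a ∈ LinearMap.ker N.mulVecLin := by
    intro a
    rw [LinearMap.mem_ker, Matrix.mulVecLin_apply]
    funext j
    exact h j a
  have h1 : LinearIndependent E (fun a => (⟨V a, hker a⟩ : LinearMap.ker N.mulVecLin)) := by
    apply LinearIndependent.of_comp (LinearMap.ker N.mulVecLin).subtype
    exact hV
  have h2 := h1.fintype_card_le_finrank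
  have h3 := LinearMap.finrank_range_add_finrank_ker N.mulVecLin
  rw [Module.finrank_fin_fun] at h3
  have h4 : Module.finrank E (LinearMap.range N.mulVecLin) = Fintype.card ι := hrank
  omega

/-- the transcendence degree of the field generated by a smooth point -/
theorem trdeg_le [IsAlgClosed k] [CharZero k] {n : ℕ} {ι κ : Type} [Fintype ι] [Finite κ]
    {F : ι → MvPolynomial (Fin n) k} {G : κ → MvPolynomial (Fin n) k}
    (hnc : ∀ a, NormalCrossingsAt F G a) {E : Type} [Field E] [Algebra k E] (z : Fin n → E)
    (hgen : IntermediateField.adjoin k (Set.range z) = ⊤)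
    (hF : ∀ j, MvPolynomial.aeval z (F j) = 0) {m : ℕ} (hm : m + Fintype.card ι = n) :
    Algebra.trdeg k E ≤ m := by
  classical
  have halg : Algebra.IsAlgebraic (Algebra.adjoin k (Set.range z)) E := by
    apply Pool.Agent.W602.GT.alg_adjoin
    rw [hgen]
    constructor
    intro y
    exact isAlgebraic_algebraMap (⟨y, trivial⟩ : (⊤ : IntermediateField k E))
  obtain ⟨B, hB, hBb⟩ := exists_isTranscendenceBasis_subset (R := k) (A := E) (Set.range z)
  have hfin : Finite B := Set.Finite.subset (Set.finite_range z) hB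
  have := Fintype.ofFinite B
  have hder : ∀ b : B, ∃ D : Derivation k E E, ∀ c : B, D (c : E) = if b = c then 1 else 0 :=
    fun b => Pool.Agent.W602.GT.exists_der (fun c : B => (c : E)) hBb _
  choose D hD using hder
  have hli := nc_transfer (E := E) F G 1 (fun a _ => hnc a) z (by simp) hF
  have hli2 : LinearIndependent E (fun (j : ι) (i : Fin n) =>
      MvPolynomial.aeval z (MvPolynomial.pderiv i (F j))) :=
    hli.comp Sum.inl Sum.inl_injective
  have hV : LinearIndependent E (fun (b : B) (i : Fin n) => D b (z i)) := by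
    rw [Fintype.linearIndependent_iff]
    intro c hc b
    obtain ⟨i, hi⟩ := hB b.2
    have h1 := congrFun hc i
    rw [Finset.sum_apply] at h1
    simp only [Pi.smul_apply, smul_eq_mul, Pi.zero_apply] at h1
    rw [hi] at h1
    rw [Finset.sum_eq_single b (fun b' _ hb' => by rw [hD, if_neg hb', mul_zero])
      (fun h => absurd (Finset.mem_univ b) h), hD, if_pos rfl, mul_one] at h1
    exact h1
  have h1 := card_add_card_le _ hli2 _ hV (by
    intro j b
    have h2 := der_aeval (D b) z (F j)
    rw [hF, map_zero] at h2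
    exact h2.symm)
  have h2 := hBb.cardinalMk_eq_trdeg
  rw [← h2, Cardinal.mk_fintype]
  exact_mod_cast (by omega : Fintype.card B ≤ m)

/-- **The component is given by a minimal prime.** -/
theorem minimal_of_smooth [IsAlgClosed k] [CharZero k] {n m : ℕ} {ι κ : Type} [Fintype ι]
    [Finite κ] {K : Type} [Field K] [Algebra k K]
    {F : ι → MvPolynomial (Fin n) k} {G : κ → MvPolynomial (Fin n) k}
    (hnc : ∀ a, NormalCrossingsAt F G a) {x : Fin n → K}
    (hgen : IntermediateField.adjoin k (Set.range x) = ⊤)
    (htr : Algebra.trdeg k K = m) (hm : m + Fintype.card ι = n)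
    (hF : ∀ j, MvPolynomial.aeval x (F j) = 0) :
    RingHom.ker (MvPolynomial.aeval x : MvPolynomial (Fin n) k →ₐ[k] K) ∈
      (Ideal.span (Set.range F)).minimalPrimes := by
  classical
  refine ⟨⟨RingHom.ker_isPrime _, ?_⟩, ?_⟩
  · rw [Ideal.span_le]
    rintro _ ⟨j, rfl⟩
    exact hF j
  rintro Q ⟨hQ, hFQ⟩ hle P hP
  let A := MvPolynomial (Fin n) k ⧸ Q
  have hdom : IsDomain A := Ideal.Quotient.isDomain Q
  let E := FractionRing A
  let π : MvPolynomial (Fin n) k →ₐ[k] A := Ideal.Quotient.mkₐ k Q
  have hπs : Function.Surjective π := Ideal.Quotient.mkₐ_surjective k Q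
  have hπ0 : ∀ R, π R = 0 ↔ R ∈ Q := fun R => Ideal.Quotient.eq_zero_iff_mem
  let z : Fin n → E := fun i => algebraMap A E (π (MvPolynomial.X i))
  have hz : ∀ R, MvPolynomial.aeval z R = algebraMap A E (π R) := by
    intro R
    have h1 : (MvPolynomial.aeval z : MvPolynomial (Fin n) k →ₐ[k] E) =
        (IsScalarTower.toAlgHom k A E).comp π := by
      apply MvPolynomial.algHom_ext
      intro i
      rw [MvPolynomial.aeval_X]
      rfl
    rw [h1]
    rfl
  have hzgen : IntermediateField.adjoin k (Set.range z) = ⊤ := by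
    rw [eq_top_iff]
    intro y _
    obtain ⟨a, b, _, hab⟩ := IsFractionRing.div_surjective (A := A) y
    obtain ⟨R, rfl⟩ := hπs a
    obtain ⟨S, rfl⟩ := hπs b
    rw [IntermediateField.mem_adjoin_range_iff]
    refine ⟨R, S, ?_⟩
    rw [hz, hz, hab]
  have htrE : Algebra.trdeg k E ≤ m := trdeg_le hnc z hzgen (fun j => by
    rw [hz, (hπ0 _).2 (hFQ (Ideal.subset_span ⟨j, rfl⟩)), map_zero]) hm
  have htrA : Algebra.trdeg k A ≤ m := by
    refine le_trans ?_ htrE
    exact _root_.trdeg_le_of_injective (IsScalarTower.toAlgHom k A E)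
      (IsFractionRing.injective A E)
  -- the specialization
  have hk : RingHom.ker π ≤
      RingHom.ker (MvPolynomial.aeval x : MvPolynomial (Fin n) k →ₐ[k] K) := by
    intro R hR
    exact hle ((hπ0 R).1 hR)
  let f : A →ₐ[k] K := AlgHom.liftOfSurjective π hπs (MvPolynomial.aeval x) hk
  have hf : ∀ R, f (π R) = MvPolynomial.aeval x R := fun R =>
    AlgHom.liftOfSurjective_apply π hπs _ hk R
  have halg : Algebra.IsAlgebraic (Algebra.adjoin k (Set.range x)) K := by
    apply Pool.Agent.W602.GT.alg_adjoin
    rw [hgen]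
    constructor
    intro y
    exact isAlgebraic_algebraMap (⟨y, trivial⟩ : (⊤ : IntermediateField k K))
  obtain ⟨B, hB, hBb⟩ := exists_isTranscendenceBasis_subset (R := k) (A := K) (Set.range x)
  have hfin : Finite B := Set.Finite.subset (Set.finite_range x) hB
  have hidx : ∀ b : B, ∃ i, x i = b := fun b => hB b.2
  choose idx hidx using hidx
  let b : B → A := fun c => π (MvPolynomial.X (idx c))
  have hfb : (fun c => f (b c)) = fun c : B => (c : K) := by
    funext c
    change f (π (MvPolynomial.X (idx c))) = c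
    rw [hf, MvPolynomial.aeval_X, hidx]
  have hind : AlgebraicIndependent k (fun c => f (b c)) := by
    rw [hfb]
    exact hBb.1
  have hb : AlgebraicIndependent k b := AlgebraicIndependent.of_comp f hind
  have hcard := hBb.cardinalMk_eq_trdeg
  rw [htr] at hcard
  have hbas : IsTranscendenceBasis k b :=
    hb.isTranscendenceBasis_of_trdeg_le_of_finite (by rw [hcard]; exact htrA)
  have h1 := inj_of_alg f b hind (π P) (hbas.isAlgebraic.isAlgebraic _) (by rw [hf]; exact hP)
  exact (hπ0 P).1 h1

end Pool.Agent.Y199.NN
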