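import Pool.Agent.Y199.NN.Uni
import Pool.Agent.Y199.NN.Min
import Pool.Agent.Y199.NN.Farkas

/-!
`A¹`-uniruledness and logarithmic Kodaira dimension of nondegenerate complete intersections.
-/

set_option autoImplicit false

open Pool.Agent.W619.PQ Pool.Agent.W619.PL MvPolynomial

namespace Pool.Agent.Y199.NN

theorem essFinite {k K : Type} [Field k] [Field K] [Algebra k K] {n : ℕ} {x : Fin n → K}
    (hgen : IntermediateField.adjoin k (Set.range x) = ⊤) : Algebra.EssFiniteType k K := by
  have h1 : (⊤ : IntermediateField k K).FG := by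
    rw [← hgen]
    exact ⟨(Set.finite_range x).toFinset, by simp⟩
  have h2 : Algebra.EssFiniteType k (⊤ : IntermediateField k K) :=
    (IntermediateField.essFiniteType_iff).2 h1
  exact (Algebra.EssFiniteType.iff_of_algEquiv (IntermediateField.topEquiv
    (F := k) (E := K))).1 h2

/-- **Low weighted degree implies `A¹`-uniruledness**, for all components of all complements. -/
theorem a1_of_weights {k K : Type} [Field k] [IsAlgClosed k] [CharZero k] [Field K] [Algebra k K]
    {n m : ℕ} {ι κ : Type} [Fintype ι] [Fintype κ] {F : ι → MvPolynomial (Fin n) k}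
    {G : κ → MvPolynomial (Fin n) k} {x : Fin n → K}
    (hgen : IntermediateField.adjoin k (Set.range x) = ⊤) (htr : Algebra.trdeg k K = m)
    (hmin : RingHom.ker (aeval x : MvPolynomial (Fin n) k →ₐ[k] K) ∈
      (Ideal.span (Set.range F)).minimalPrimes) (hG : ∀ l, aeval x (G l) ≠ 0)
    {w : Fin n → ℕ} (hw : ∑ j, weightedTotalDegree w (F j) + ∑ l, weightedTotalDegree w (G l) <
      ∑ i, w i) : IsA1Uniruled k K m (Boundary G x) := by
  obtain ⟨q, hq0, ⟨i0, hi0⟩, hq⟩ := exists_curve' (L := AlgebraicClosure K) (Sum.elim F G) w (by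
    rw [Fintype.sum_sum_type]
    exact hw) (fun i => algebraMap K (AlgebraicClosure K) (x i))
  have hx : ∀ R : MvPolynomial (Fin n) k,
      aeval (fun i => algebraMap K (AlgebraicClosure K) (x i)) R =
        algebraMap K (AlgebraicClosure K) (aeval x R) := fun R =>
    aeval_algebraMap_apply (AlgebraicClosure K) x R
  have hF : ∀ j, aeval x (F j) = 0 := fun j => hmin.1.2 (Ideal.subset_span ⟨j, rfl⟩)
  refine a1_of_curve (L := AlgebraicClosure K) hgen htr hmin hG q hq0 i0 hi0 (fun j => ?_)
    fun l => ?_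
  · have h1 := hq (Sum.inl j)
    rw [hx] at h1
    change aeval q (F j) = Polynomial.C (algebraMap K _ (aeval x (F j))) at h1
    rw [h1, hF, map_zero, map_zero]
  · have h1 := hq (Sum.inr l)
    rw [hx] at h1
    exact h1

theorem main {k K : Type} [Field k] [IsAlgClosed k] [CharZero k] [Field K] [Algebra k K]
    {n m : ℕ} {ι κ : Type} [Fintype ι] [Fintype κ] {F : ι → MvPolynomial (Fin n) k}
    {G : κ → MvPolynomial (Fin n) k} {x : Fin n → K} (hx : ∀ i, x i ≠ 0)
    (hgen : IntermediateField.adjoin k (Set.range x) = ⊤) (htr : Algebra.trdeg k K = m)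
    (hm : m + Fintype.card ι = n) (hF : ∀ j, aeval x (F j) = 0) (hG : ∀ l, aeval x (G l) ≠ 0)
    (hnc : ∀ a, NormalCrossingsAt F G a) (hnd : NondegenerateAtInfinity F G) :
    List.TFAE [
      LogKodairaNeg k K m (Boundary G x),
      IsA1Uniruled k K m (Boundary G x),
      ∀ (L : Type) [Field L] [IsAlgClosed L] [Algebra k L] (a : Fin n → L),
        (∀ j, aeval a (F j) = 0) → (∀ l, aeval a (G l) ≠ 0) → ∃ q : Fin n → Polynomial L,
          (∀ i, (q i).eval 0 = a i) ∧ (∃ i, 0 < (q i).natDegree) ∧
          (∀ j, aeval q (F j) = 0) ∧ ∀ l, aeval q (G l) = Polynomial.C (aeval a (G l)),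
      ∃ w : Fin n → ℕ,
        ∑ j, weightedTotalDegree w (F j) + ∑ l, weightedTotalDegree w (G l) < ∑ i, w i,
      ¬ Below (Sum.elim F G)] := by
  classical
  have hess : Algebra.EssFiniteType k K := essFinite hgen
  have hmin := minimal_of_smooth hnc hgen htr hm hF
  have hH : ∀ t, (Sum.elim F G) t ≠ 0 := by
    rintro (j | l)
    · intro h0
      change F j = 0 at h0
      have hli := nc_transfer (E := K) F G 1 (fun a _ => hnc a) x (by simp) hF
      apply hli.ne_zero (Sum.inl j)
      funext i
      change aeval x (pderiv i (F j)) = 0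
      rw [h0, map_zero, map_zero]
    · intro h0
      change G l = 0 at h0
      apply hG l
      rw [h0, map_zero]
  tfae_have 4 → 3 := by
    rintro ⟨w, hw⟩ L _ _ _ a hFa hGa
    obtain ⟨q, hq0, hi0, hq⟩ := exists_curve' (L := L) (Sum.elim F G) w (by
      rw [Fintype.sum_sum_type]
      exact hw) a
    refine ⟨q, hq0, hi0, fun j => ?_, fun l => hq (Sum.inr l)⟩
    have h1 : aeval q (F j) = Polynomial.C (aeval a (F j)) := hq (Sum.inl j)
    rw [h1, hFa, map_zero]
  tfae_have 3 → 2 := by
    intro h
    have hxL : ∀ R : MvPolynomial (Fin n) k,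
        aeval (fun i => algebraMap K (AlgebraicClosure K) (x i)) R =
          algebraMap K (AlgebraicClosure K) (aeval x R) := fun R =>
      aeval_algebraMap_apply (AlgebraicClosure K) x R
    obtain ⟨q, hq0, ⟨i0, hi0⟩, hqF, hqG⟩ := h (AlgebraicClosure K)
      (fun i => algebraMap K (AlgebraicClosure K) (x i)) (fun j => by rw [hxL, hF, map_zero])
      (fun l => by rw [hxL, Ne, map_eq_zero]; exact hG l)
    refine a1_of_curve (L := AlgebraicClosure K) hgen htr hmin hG q hq0 i0 hi0 hqF fun l => ?_
    rw [hqG, hxL]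
  tfae_have 2 → 1 := neg_of_a1 htr
  tfae_have 1 → 5 := fun h hb => not_neg hx hgen htr hm hF hG hnc hnd hb h
  tfae_have 5 → 4 := by
    intro h
    obtain ⟨w, hw⟩ := below_or _ hH h
    rw [Fintype.sum_sum_type] at hw
    exact ⟨w, hw⟩
  tfae_finish

end Pool.Agent.Y199.NN
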