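import Pool.Agent.Y199.NN.Lin
import Pool.Agent.Helper386.D5V.Helper386_FF_Place

/-!
Regularity of determinants completed by dual vectors.
-/

set_option autoImplicit false

open FF Matrix

namespace Pool.Agent.Y199.NN

variable {k K : Type} [Field k] [Field K] [Algebra k K] (P : Place k K)

theorem reg_sum {ι : Type*} (s : Finset ι) (f : ι → K) (h : ∀ i ∈ s, P.Reg (f i)) :
    P.Reg (∑ i ∈ s, f i) := by
  classical
  induction s using Finset.induction_on with
  | empty => rw [Finset.sum_empty]; exact P.reg_zero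
  | insert a s ha ih =>
    rw [Finset.sum_insert ha]
    exact P.reg_add (h a (Finset.mem_insert_self _ _))
      (ih fun i hi => h i (Finset.mem_insert_of_mem hi))

theorem reg_prod {ι : Type*} (s : Finset ι) (f : ι → K) (h : ∀ i ∈ s, P.Reg (f i)) :
    P.Reg (∏ i ∈ s, f i) := by
  classical
  induction s using Finset.induction_on with
  | empty => rw [Finset.prod_empty]; exact P.reg_one
  | insert a s ha ih =>
    rw [Finset.prod_insert ha]
    exact P.reg_mul (h a (Finset.mem_insert_self _ _))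
      (ih fun i hi => h i (Finset.mem_insert_of_mem hi))

theorem reg_pow {f : K} (h : P.Reg f) (n : ℕ) : P.Reg (f ^ n) := by
  induction n with
  | zero => rw [pow_zero]; exact P.reg_one
  | succ n ih => rw [pow_succ]; exact P.reg_mul ih h

theorem reg_sub {f g : K} (hf : P.Reg f) (hg : P.Reg g) : P.Reg (f - g) := by
  rw [sub_eq_add_neg]
  exact P.reg_add hf (P.reg_neg hg)

theorem reg_det {ι : Type*} [Fintype ι] [DecidableEq ι] (A : Matrix ι ι K)
    (hA : ∀ i j, P.Reg (A i j)) : P.Reg A.det := by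
  rw [det_apply]
  refine reg_sum P _ _ fun σ _ => ?_
  rw [Units.smul_def, zsmul_eq_mul]
  refine P.reg_mul ?_ (reg_prod P _ _ fun i _ => hA _ _)
  rcases Int.units_eq_one_or (Equiv.Perm.sign σ) with h | h
  · rw [h]; simpa using P.reg_one
  · rw [h]; simpa using P.reg_neg P.reg_one

theorem reg_mulMat {a b c : Type*} [Fintype b] (A : Matrix a b K) (B : Matrix b c K)
    (hA : ∀ i j, P.Reg (A i j)) (hB : ∀ i j, P.Reg (B i j)) : ∀ i j, P.Reg ((A * B) i j) := by
  intro i j
  rw [Matrix.mul_apply]
  exact reg_sum P _ _ fun l _ => P.reg_mul (hA _ _) (hB _ _)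

theorem resHom_isUnit (z : P.O) (hz : P.resHom z ≠ 0) : IsUnit z := by
  have h1 : IsLocalRing.residue P.O z ≠ 0 := hz
  exact (IsLocalRing.residue_ne_zero_iff_isUnit z).1 h1

variable {M R S : Type*} [Fintype M] [Fintype R] [Fintype S] [DecidableEq M] [DecidableEq R]
  [DecidableEq S]

/-- **The core estimate.** -/
theorem core (d : Matrix (M ⊕ R) M K) (hd : ∀ i a, P.Reg (d i a))
    (N : Matrix R (M ⊕ R) K) (W : Matrix S (M ⊕ R) K) (hN : ∀ j i, P.Reg (N j i))
    (hW : ∀ j i, P.Reg (W j i))
    (hli : LinearIndependent P.RF (Sum.elim (fun (j : R) (i : M ⊕ R) => P.red (N j i))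
      (fun (j : S) (i : M ⊕ R) => P.red (W j i))))
    (hNd : N * d = 0) (g : S → K) (hWd : ∀ j a, P.Reg ((W * d) j a * (g j)⁻¹))
    (u : Matrix (M ⊕ R) R K) (hu : N * u = 1) :
    P.Reg ((∏ j, (g j)⁻¹) * (fromCols d u).det) := by
  classical
  let A : Matrix (R ⊕ S) (M ⊕ R) P.O :=
    fromRows (Matrix.of fun j i => ⟨N j i, hN j i⟩) (Matrix.of fun j i => ⟨W j i, hW j i⟩)
  have hA : (A.map P.resHom).row = Sum.elim (fun (j : R) (i : M ⊕ R) => P.red (N j i))
      (fun (j : S) (i : M ⊕ R) => P.red (W j i)) := by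
    funext j i
    rcases j with j | j
    · exact (P.red_of_reg (hN j i)).symm
    · exact (P.red_of_reg (hW j i)).symm
  obtain ⟨B, hB⟩ := exists_right_inv P.resHom P.resHom_surjective (resHom_isUnit P) A (by
    rw [hA]; exact hli)
  let A' : Matrix (R ⊕ S) (M ⊕ R) K := fromRows N W
  let B' : Matrix (M ⊕ R) (R ⊕ S) K := B.map P.O.subtype
  have hB' : A' * B' = 1 := by
    have h1 : A' = A.map P.O.subtype := by
      ext j i
      rcases j with j | j <;> rfl
    rw [h1]
    change A.map P.O.subtype * B.map P.O.subtype = 1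
    rw [← Matrix.map_mul, hB, Matrix.map_one _ (map_zero _) (map_one _)]
  have hBr : ∀ i j, P.Reg (B' i j) := fun i j => (B i j).2
  let U : Matrix (M ⊕ R) R K := B'.toCols₁
  let V : Matrix (M ⊕ R) S K := B'.toCols₂
  have hUV : B' = fromCols U V := (fromCols_toCols B').symm
  have h2 : fromRows N W * fromCols U V = 1 := by
    rw [← hUV]; exact hB'
  rw [fromRows_mul_fromCols, ← fromBlocks_one, fromBlocks_inj] at h2
  obtain ⟨hNU, hNV, hWU, hWV⟩ := h2
  have h3 := det_scale d U W V hWU hWV g
  rw [← det_indep d N hNd U u hNU hu] at h3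
  rw [← h3]
  refine reg_det P _ fun i j => ?_
  rcases j with j | j
  · rw [fromCols_apply_inl, Matrix.add_apply]
    refine P.reg_add (hd _ _) ?_
    refine reg_mulMat P V _ (fun i j => hBr i (Sum.inr j)) (fun l a => ?_) i j
    rw [diagonal_mul, sub_mul, one_mul]
    refine reg_sub P ?_ ?_
    · rw [mul_comm]; exact hWd l a
    · exact reg_mulMat P W d hW hd l a
  · rw [fromCols_apply_inr]
    exact hBr i (Sum.inl j)

/-- rescaling the dual vectors -/
theorem det_rescale (d : Matrix (M ⊕ R) M K) (u : Matrix (M ⊕ R) R K) (c : R → K) :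
    (fromCols d (u * diagonal c)).det = (∏ j, c j) * (fromCols d u).det := by
  have h1 : fromCols d (u * diagonal c) = fromCols d u * fromBlocks 1 0 0 (diagonal c) := by
    rw [← fromRows_fromCols_eq_fromBlocks, fromCols_mul_fromRows, mul_fromCols, mul_fromCols]
    ext i j
    rcases j with j | j <;> simp
  rw [h1, det_mul, det_fromBlocks_zero₂₁, det_one, one_mul, det_diagonal, mul_comm]

end Pool.Agent.Y199.NN
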