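import Mathlib
import Pool.Agent.H952R2.Sextic.CommonZero

/-!
Affine lines through every point of a variety of small weighted degree.
-/

set_option autoImplicit false

namespace Pool.Agent.Y199.NN

open Finset Polynomial

theorem natDegree_aeval_le {k L : Type} [Field k] [Field L] [Algebra k L] {n : ℕ} (w : Fin n → ℕ)
    (q : Fin n → L[X]) (hq : ∀ i, (q i).natDegree ≤ w i) (F : MvPolynomial (Fin n) k) :
    (MvPolynomial.aeval q F).natDegree ≤ MvPolynomial.weightedTotalDegree w F := by
  rw [MvPolynomial.aeval_def, MvPolynomial.eval₂_eq']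
  refine Polynomial.natDegree_sum_le_of_forall_le _ _ fun a ha => ?_
  refine (Polynomial.natDegree_mul_le).trans ?_
  have h1 : ((algebraMap k L[X]) (MvPolynomial.coeff a F)).natDegree = 0 := by
    rw [IsScalarTower.algebraMap_apply k L L[X]]
    exact Polynomial.natDegree_C _
  rw [h1, zero_add]
  refine (Polynomial.natDegree_prod_le _ _).trans ?_
  have h2 := MvPolynomial.le_weightedTotalDegree w ha
  rw [Finsupp.weight_apply, Finsupp.sum_fintype _ _ (by simp)] at h2
  refine le_trans ?_ h2
  refine Finset.sum_le_sum fun i _ => ?_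
  refine (Polynomial.natDegree_pow_le).trans ?_
  rw [smul_eq_mul]
  exact Nat.mul_le_mul_left _ (hq i)

/-- the generic curve through `a` with coordinates of degrees at most `w i` -/
noncomputable def gen {R : Type} [CommRing R] {n : ℕ} (w : Fin n → ℕ) (a : Fin n → R)
    (c : ((i : Fin n) × Fin (w i)) → R) (i : Fin n) : R[X] :=
  C (a i) + ∑ m : Fin (w i), C (c ⟨i, m⟩) * X ^ ((m : ℕ) + 1)

theorem gen_map {R S : Type} [CommRing R] [CommRing S] (f : R →+* S) {n : ℕ} (w : Fin n → ℕ)
    (a : Fin n → R) (c : ((i : Fin n) × Fin (w i)) → R) (i : Fin n) :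
    (gen w a c i).map f = gen w (fun i => f (a i)) (fun s => f (c s)) i := by
  unfold gen
  simp [Polynomial.map_sum]

theorem gen_eval {R : Type} [CommRing R] {n : ℕ} (w : Fin n → ℕ) (a : Fin n → R)
    (c : ((i : Fin n) × Fin (w i)) → R) (i : Fin n) : (gen w a c i).eval 0 = a i := by
  unfold gen
  rw [eval_add, eval_C, eval_finsetSum]
  simp

theorem gen_zero {R : Type} [CommRing R] {n : ℕ} (w : Fin n → ℕ) (a : Fin n → R) (i : Fin n) :
    gen w a 0 i = C (a i) := by
  unfold gen
  simp

theorem gen_coeff {R : Type} [CommRing R] {n : ℕ} (w : Fin n → ℕ) (a : Fin n → R)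
    (c : ((i : Fin n) × Fin (w i)) → R) (i : Fin n) (m : Fin (w i)) :
    (gen w a c i).coeff ((m : ℕ) + 1) = c ⟨i, m⟩ := by
  unfold gen
  rw [coeff_add, coeff_C_succ, zero_add, finsetSum_coeff]
  simp only [coeff_C_mul_X_pow]
  rw [Finset.sum_eq_single m]
  · simp
  · intro b _ hb
    rw [if_neg]
    intro h
    exact hb (Fin.ext (by omega))
  · simp

theorem gen_natDegree {R : Type} [CommRing R] {n : ℕ} (w : Fin n → ℕ) (a : Fin n → R)
    (c : ((i : Fin n) × Fin (w i)) → R) (i : Fin n) : (gen w a c i).natDegree ≤ w i := by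
  unfold gen
  refine (natDegree_add_le _ _).trans (max_le (by rw [natDegree_C]; exact Nat.zero_le _) ?_)
  refine natDegree_sum_le_of_forall_le _ _ fun m _ => ?_
  exact (natDegree_C_mul_X_pow_le _ _).trans m.2

/-- **Affine lines through every point.** If the sum of the weighted degrees of the polynomials
`H j` is less than the sum of the weights of the variables then through every point of the affine
space there is a nonconstant polynomial curve on which all `H j` are constant. -/
theorem exists_curve {L : Type} [Field L] [IsAlgClosed L] {n : ℕ} {ι : Type} [Fintype ι]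
    (H : ι → MvPolynomial (Fin n) L) (w : Fin n → ℕ)
    (hw : ∑ j, MvPolynomial.weightedTotalDegree w (H j) < ∑ i, w i) (a : Fin n → L) :
    ∃ q : Fin n → L[X], (∀ i, (q i).eval 0 = a i) ∧ (∃ i, 0 < (q i).natDegree) ∧
      ∀ j, MvPolynomial.aeval q (H j) = C (MvPolynomial.aeval a (H j)) := by
  classical
  let V := (i : Fin n) × Fin (w i)
  let W := (j : ι) × Fin (MvPolynomial.weightedTotalDegree w (H j))
  have hcard : Fintype.card W < Fintype.card V := by
    simpa [V, W] using hw
  let R := MvPolynomial V L
  let G : Fin n → R[X] := gen w (fun i => MvPolynomial.C (a i)) MvPolynomial.X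
  let P : W → R := fun s => (MvPolynomial.aeval G (H s.1)).coeff ((s.2 : ℕ) + 1)
  have hev : ∀ (c : V → L) (F : MvPolynomial (Fin n) L),
      (MvPolynomial.aeval G F).map (MvPolynomial.eval c) = MvPolynomial.aeval (gen w a c) F := by
    intro c F
    have h1 : (Polynomial.mapAlgHom (MvPolynomial.aeval c : R →ₐ[L] L)).comp
        (MvPolynomial.aeval G : MvPolynomial (Fin n) L →ₐ[L] R[X]) =
        MvPolynomial.aeval (gen w a c) := by
      apply MvPolynomial.algHom_ext
      intro i
      rw [AlgHom.comp_apply, MvPolynomial.aeval_X, MvPolynomial.aeval_X]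
      change (G i).map _ = _
      rw [gen_map]
      congr 1
      · funext i
        exact MvPolynomial.eval_C (f := c) (a i)
      · funext s
        exact MvPolynomial.eval_X (f := c) s
    exact congrArg (fun f => f F) (congrArg DFunLike.coe h1)
  have h0 : ∀ s, MvPolynomial.eval 0 (P s) = 0 := by
    intro s
    change MvPolynomial.eval 0 ((MvPolynomial.aeval G (H s.1)).coeff ((s.2 : ℕ) + 1)) = 0
    rw [← Polynomial.coeff_map, hev]
    have h2 : gen w a (0 : V → L) = fun i => C (a i) := funext fun i => gen_zero w a i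
    have h3 : MvPolynomial.aeval (fun i => (C (a i) : L[X])) (H s.1) =
        C (MvPolynomial.aeval a (H s.1)) := by
      have := MvPolynomial.aeval_algebraMap_apply L[X] a (H s.1)
      exact this
    rw [h2, h3, coeff_C_succ]
  obtain ⟨c, hc0, hc⟩ := Pool.Agent.H952R2.Sextic.exists_common_zero hcard P h0
  refine ⟨gen w a c, gen_eval w a c, ?_, fun j => ?_⟩
  · obtain ⟨⟨i, m⟩, hs⟩ := Function.ne_iff.1 hc0
    refine ⟨i, ?_⟩
    by_contra hne
    have h1 : (gen w a c i).natDegree = 0 := by omega
    apply hs
    rw [← gen_coeff w a c i m]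
    exact coeff_eq_zero_of_natDegree_lt (by omega)
  · ext l
    rcases l with _ | l
    · rw [coeff_C_zero, coeff_zero_eq_eval_zero]
      have h1 : (Polynomial.eval 0 (MvPolynomial.aeval (gen w a c) (H j)) : L) =
          MvPolynomial.aeval (fun i => (gen w a c i).eval 0) (H j) := by
        have h2 : ((Polynomial.aeval (0 : L) : L[X] →ₐ[L] L)).comp
            (MvPolynomial.aeval (gen w a c) : MvPolynomial (Fin n) L →ₐ[L] L[X]) =
            MvPolynomial.aeval (fun i => (gen w a c i).eval 0) := by
          apply MvPolynomial.algHom_ext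
          intro i
          simp [Polynomial.aeval_def]
        have h3 := congrArg (fun f => f (H j)) (congrArg DFunLike.coe h2)
        rw [← h3]
        simp [Polynomial.aeval_def]
      rw [h1]
      congr 2
      funext i
      exact gen_eval w a c i
    · rw [coeff_C_succ]
      by_cases hl : l < MvPolynomial.weightedTotalDegree w (H j)
      · have h1 := hc ⟨j, ⟨l, hl⟩⟩
        change MvPolynomial.eval c ((MvPolynomial.aeval G (H j)).coeff (l + 1)) = 0 at h1
        rw [← Polynomial.coeff_map, hev] at h1
        exact h1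
      · refine coeff_eq_zero_of_natDegree_lt ?_
        have h1 := natDegree_aeval_le w (gen w a c) (gen_natDegree w a c) (H j)
        omega

/-- the same for polynomials with coefficients in a subfield -/
theorem exists_curve' {k L : Type} [Field k] [Field L] [Algebra k L] [IsAlgClosed L] {n : ℕ}
    {ι : Type} [Fintype ι] (H : ι → MvPolynomial (Fin n) k) (w : Fin n → ℕ)
    (hw : ∑ j, MvPolynomial.weightedTotalDegree w (H j) < ∑ i, w i) (a : Fin n → L) :
    ∃ q : Fin n → L[X], (∀ i, (q i).eval 0 = a i) ∧ (∃ i, 0 < (q i).natDegree) ∧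
      ∀ j, MvPolynomial.aeval q (H j) = C (MvPolynomial.aeval a (H j)) := by
  obtain ⟨q, h1, h2, h3⟩ := exists_curve (fun j => MvPolynomial.map (algebraMap k L) (H j)) w
    (lt_of_le_of_lt (Finset.sum_le_sum fun j _ => by
      unfold MvPolynomial.weightedTotalDegree
      exact Finset.sup_mono (MvPolynomial.support_map_subset _ _)) hw) a
  refine ⟨q, h1, h2, fun j => ?_⟩
  have h4 := h3 j
  rw [MvPolynomial.aeval_map_algebraMap, MvPolynomial.aeval_map_algebraMap] at h4
  exact h4

end Pool.Agent.Y199.NN
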