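import Mathlib

/-!
Embeddings given by generic points, and specializations.
-/

set_option autoImplicit false

namespace Pool.Agent.Y199.NN

variable {k : Type} [Field k]

/-- the field generated by a generic point embeds into a field with a point which satisfies the same
equations -/
theorem exists_emb {n : ℕ} {K E : Type} [Field K] [Algebra k K] [Field E] [Algebra k E]
    (x : Fin n → K) (hgen : IntermediateField.adjoin k (Set.range x) = ⊤) (z : Fin n → E)
    (h : ∀ P : MvPolynomial (Fin n) k, MvPolynomial.aeval x P = 0 ↔ MvPolynomial.aeval z P = 0) :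
    ∃ φ : K →ₐ[k] E, ∀ i, φ (x i) = z i := by
  let f : MvPolynomial (Fin n) k →ₐ[k] K := MvPolynomial.aeval x
  let g : MvPolynomial (Fin n) k →ₐ[k] E := MvPolynomial.aeval z
  let R := f.range
  have hsurj : Function.Surjective f.rangeRestrict := f.rangeRestrict_surjective
  have hk : RingHom.ker f.rangeRestrict ≤ RingHom.ker g := by
    intro P hP
    rw [RingHom.mem_ker] at hP ⊢
    refine (h P).1 ?_
    exact congrArg Subtype.val hP
  let g' : R →ₐ[k] E := AlgHom.liftOfSurjective f.rangeRestrict hsurj g hk
  have hg' : ∀ P, g' (f.rangeRestrict P) = g P := fun P =>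
    AlgHom.liftOfSurjective_apply f.rangeRestrict hsurj g hk P
  have hinj : Function.Injective g' := by
    rw [injective_iff_map_eq_zero]
    intro a ha
    obtain ⟨P, rfl⟩ := hsurj a
    rw [hg'] at ha
    apply Subtype.ext
    exact (h P).2 ha
  have hfrac : IsFractionRing R K := by
    refine IsFractionRing.of_field R K fun z => ?_
    have hz : z ∈ IntermediateField.adjoin k (Set.range x) := by rw [hgen]; trivial
    rw [IntermediateField.mem_adjoin_range_iff] at hz
    obtain ⟨P, Q, hPQ⟩ := hz
    exact ⟨⟨f P, P, rfl⟩, ⟨f Q, Q, rfl⟩, hPQ⟩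
  refine ⟨IsFractionRing.liftAlgHom (A := R) (K := K) (g := g') hinj, fun i => ?_⟩
  have h1 : x i = algebraMap R K (f.rangeRestrict (MvPolynomial.X i)) :=
    (MvPolynomial.aeval_X x i).symm
  rw [h1]
  have h2 := IsFractionRing.lift_algebraMap (A := R) (K := K) (g := g'.toRingHom) hinj
    (f.rangeRestrict (MvPolynomial.X i))
  refine h2.trans ((hg' _).trans ?_)
  exact MvPolynomial.aeval_X z i

/-- a homomorphism which is injective on a transcendence basis is injective on the elements
algebraic over it -/
theorem inj_of_alg {A B J : Type} [CommRing A] [IsDomain A] [Algebra k A] [CommRing B]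
    [Algebra k B] (f : A →ₐ[k] B) (b : J → A)
    (hb : AlgebraicIndependent k (fun j => f (b j))) (a : A)
    (ha : IsAlgebraic (Algebra.adjoin k (Set.range b)) a) (h0 : f a = 0) : a = 0 := by
  by_contra ha0
  obtain ⟨q, hq0, hq⟩ := ha.exists_nonzero_coeff_and_aeval_eq_zero
    (mem_nonZeroDivisors_of_ne_zero ha0)
  have h1 : f (q.coeff 0 : A) = 0 := by
    have h2 : f (Polynomial.aeval a q) = 0 := by rw [hq, map_zero]
    rw [Polynomial.aeval_eq_sum_range, map_sum, Finset.sum_range_succ'] at h2
    rw [Finset.sum_eq_zero] at h2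
    · rw [zero_add, pow_zero] at h2
      rw [Algebra.smul_def, mul_one] at h2
      exact h2
    · intro i _
      rw [Algebra.smul_def, map_mul, map_pow, h0, pow_succ, mul_zero, mul_zero]
  obtain ⟨P, hP⟩ : ∃ P : MvPolynomial J k, MvPolynomial.aeval b P = (q.coeff 0 : A) := by
    exact (Algebra.adjoin_range_eq_range_aeval k b).le (q.coeff 0).2
  have h4 : MvPolynomial.aeval (fun j => f (b j)) P = 0 := by
    rw [← h1, ← hP, MvPolynomial.aeval_def, MvPolynomial.aeval_def]
    change _ = f.toRingHom _
    rw [MvPolynomial.hom_eval₂]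
    congr 1
    exact RingHom.ext fun c => (f.commutes c).symm
  have h5 := (injective_iff_map_eq_zero _).1 hb P h4
  apply hq0
  apply Subtype.ext
  rw [← hP, h5, map_zero]
  rfl

end Pool.Agent.Y199.NN
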