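import Pool.Agent.Y199.NN.Core

/-!
Initial forms of polynomials and their values at a place.
-/

set_option autoImplicit false

open FF Matrix MvPolynomial

namespace Pool.Agent.Y199.NN

/-- The weight of an exponent. -/
def wt {n : ℕ} (α : Fin n → ℤ) (a : Fin n →₀ ℕ) : ℤ := ∑ i, α i * a i

open scoped Classical in
/-- The initial form: the sum of the terms of smallest weight. -/
noncomputable def initForm {n : ℕ} {k : Type} [Field k] (α : Fin n → ℤ)
    (F : MvPolynomial (Fin n) k) : MvPolynomial (Fin n) k :=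
  ∑ a ∈ F.support with (∀ b ∈ F.support, wt α a ≤ wt α b), monomial a (coeff a F)

variable {n : ℕ} {k : Type} [Field k]

/-- the terms of weight `h` -/
noncomputable def part (α : Fin n → ℤ) (h : ℤ) (F : MvPolynomial (Fin n) k) :
    MvPolynomial (Fin n) k :=
  ∑ a ∈ F.support with wt α a = h, monomial a (coeff a F)

theorem exists_min (α : Fin n → ℤ) (F : MvPolynomial (Fin n) k) : ∃ h : ℤ,
    (∀ a ∈ F.support, h ≤ wt α a) ∧ initForm α F = part α h F := by
  classical
  by_cases hF : F = 0
  · refine ⟨0, ?_, ?_⟩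
    · rw [hF]
      simp
    · unfold initForm part
      rw [hF]
      simp
  · obtain ⟨a0, ha0, hmin⟩ := Finset.exists_min_image F.support (wt α) (support_nonempty.2 hF)
    refine ⟨wt α a0, hmin, ?_⟩
    unfold initForm part
    refine Finset.sum_congr ?_ fun _ _ => rfl
    ext a
    simp only [Finset.mem_filter]
    constructor
    · rintro ⟨h1, h2⟩
      exact ⟨h1, le_antisymm (h2 a0 ha0) (hmin a h1)⟩
    · rintro ⟨h1, h2⟩
      exact ⟨h1, fun b hb => by rw [h2]; exact hmin b hb⟩

theorem coeff_part (α : Fin n → ℤ) (h : ℤ) (F : MvPolynomial (Fin n) k) (a : Fin n →₀ ℕ) :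
    coeff a (part α h F) = if wt α a = h then coeff a F else 0 := by
  classical
  unfold part
  rw [coeff_sum]
  simp only [coeff_monomial]
  rw [Finset.sum_ite_eq']
  by_cases h1 : coeff a F = 0
  · simp [h1]
  · simp [h1]

theorem coeff_euler (G : MvPolynomial (Fin n) k) (i : Fin n) (a : Fin n →₀ ℕ) :
    coeff a (X i * pderiv i G) = (a i : k) * coeff a G := by
  classical
  induction G using MvPolynomial.induction_on' with
  | monomial b c =>
    rw [pderiv_monomial, mul_comm (X i)]
    by_cases hb : b i = 0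
    · rw [hb, Nat.cast_zero, mul_zero, monomial_zero, zero_mul, coeff_zero, coeff_monomial]
      split_ifs with h1
      · rw [← h1, hb]; simp
      · simp
    · have e2 : b - Finsupp.single i 1 + Finsupp.single i 1 = b := by
        ext j
        rw [Finsupp.add_apply, Finsupp.tsub_apply]
        by_cases hj : i = j
        · subst hj
          rw [Finsupp.single_eq_same]
          omega
        · rw [Finsupp.single_eq_of_ne (Ne.symm hj)]
          omega
      have e1 : (monomial (b - Finsupp.single i 1)) (c * (b i : k)) * X i =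
          monomial b (c * (b i : k)) := by
        rw [X, monomial_mul, mul_one, e2]
      rw [e1, coeff_monomial, coeff_monomial]
      split_ifs with h1
      · rw [h1]; ring
      · simp
  | add p q hp hq =>
    rw [map_add, mul_add, coeff_add, coeff_add, hp, hq, mul_add]

/-- `x_i ∂/∂x_i` commutes with taking parts -/
theorem part_euler (α : Fin n → ℤ) (h : ℤ) (F : MvPolynomial (Fin n) k) (i : Fin n) :
    part α h (X i * pderiv i F) = X i * pderiv i (part α h F) := by
  ext a
  rw [coeff_part, coeff_euler, coeff_euler, coeff_part]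
  split_ifs <;> simp

theorem support_euler (F : MvPolynomial (Fin n) k) (i : Fin n) :
    (X i * pderiv i F).support ⊆ F.support := by
  intro a ha
  rw [mem_support_iff] at ha ⊢
  intro h0
  apply ha
  rw [coeff_euler, h0, mul_zero]

section place

variable {K : Type} [Field K] [Algebra k K] (P : Place k K)

theorem ord_prod' {ι : Type*} (s : Finset ι) (f : ι → K) (hf : ∀ i ∈ s, f i ≠ 0) :
    P.ord (∏ i ∈ s, f i) = ∑ i ∈ s, P.ord (f i) := by
  classical
  induction s using Finset.induction_on with
  | empty => rw [Finset.prod_empty, Finset.sum_empty, P.ord_one]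
  | insert a s ha ih =>
    rw [Finset.prod_insert ha, Finset.sum_insert ha, P.ord_mul (hf a (Finset.mem_insert_self _ _))
      (Finset.prod_ne_zero_iff.2 fun i hi => hf i (Finset.mem_insert_of_mem hi)),
      ih fun i hi => hf i (Finset.mem_insert_of_mem hi)]

/-- the unit part of an element -/
noncomputable def un (π x : K) : K := x * π ^ (-P.ord x)

theorem un_ne {π x : K} (hπ : π ≠ 0) (hx : x ≠ 0) : un P π x ≠ 0 :=
  mul_ne_zero hx (zpow_ne_zero _ hπ)

theorem ord_un {π x : K} (hπ0 : π ≠ 0) (hπ : P.ord π = 1) (hx : x ≠ 0) : P.ord (un P π x) = 0 := by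
  unfold un
  rw [P.ord_mul hx (zpow_ne_zero _ hπ0), P.ord_zpow, hπ]
  ring

theorem eq_un {π x : K} (hπ0 : π ≠ 0) : x = un P π x * π ^ (P.ord x) := by
  unfold un
  rw [mul_assoc, ← zpow_add₀ hπ0]
  simp

/-- **Reduction of the value of a polynomial.** -/
theorem red_value {π : K} (hπ0 : π ≠ 0) (hπ : P.ord π = 1) (x : Fin n → K) (hx : ∀ i, x i ≠ 0)
    (F : MvPolynomial (Fin n) k) (h : ℤ)
    (hh : ∀ a ∈ F.support, h ≤ wt (fun i => P.ord (x i)) a) :
    P.Reg (aeval x F * π ^ (-h)) ∧ P.red (aeval x F * π ^ (-h)) =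
      aeval (fun i => P.red (un P π (x i))) (part (fun i => P.ord (x i)) h F) := by
  classical
  set α : Fin n → ℤ := fun i => P.ord (x i) with hα
  let t : (Fin n →₀ ℕ) → K := fun a => algebraMap k K (coeff a F) *
    (∏ i, un P π (x i) ^ a i) * π ^ (wt α a - h)
  have hterm : aeval x F * π ^ (-h) = ∑ a ∈ F.support, t a := by
    rw [aeval_def, eval₂_eq', Finset.sum_mul]
    refine Finset.sum_congr rfl fun a _ => ?_
    have h1 : ∏ i, x i ^ a i = (∏ i, un P π (x i) ^ a i) * π ^ (wt α a) := by
      have h2 : ∀ i, x i ^ a i = un P π (x i) ^ a i * π ^ (α i * a i) := by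
        intro i
        conv_lhs => rw [eq_un P (x := x i) hπ0]
        rw [mul_pow, ← zpow_natCast (π ^ P.ord (x i)), ← _root_.zpow_mul]
      rw [Finset.prod_congr rfl fun i _ => h2 i, Finset.prod_mul_distrib]
      congr 1
      unfold wt
      have h3 : ∀ s : Finset (Fin n), ∏ i ∈ s, π ^ (α i * (a i : ℤ)) =
          π ^ (∑ i ∈ s, α i * (a i : ℤ)) := by
        intro s
        induction s using Finset.induction_on with
        | empty => simp
        | insert i s hi ih => rw [Finset.prod_insert hi, Finset.sum_insert hi, ih, zpow_add₀ hπ0]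
      exact h3 _
    change _ = algebraMap k K (coeff a F) * (∏ i, un P π (x i) ^ a i) * π ^ (wt α a - h)
    rw [h1, sub_eq_add_neg, zpow_add₀ hπ0]
    ring
  have hmon : ∀ a : Fin n →₀ ℕ, P.Reg (∏ i, un P π (x i) ^ a i) ∧
      P.red (∏ i, un P π (x i) ^ a i) = ∏ i, P.red (un P π (x i)) ^ a i := by
    intro a
    have h2 : ∀ s : Finset (Fin n), P.Reg (∏ i ∈ s, un P π (x i) ^ a i) ∧
        P.red (∏ i ∈ s, un P π (x i) ^ a i) = ∏ i ∈ s, P.red (un P π (x i)) ^ a i := by
      intro s
      induction s using Finset.induction_on with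
      | empty => simp [P.reg_one, P.red_one]
      | insert i s hi ih =>
        have h3 : P.Reg (un P π (x i)) := Or.inr (ord_un P hπ0 hπ (hx i)).ge
        rw [Finset.prod_insert hi, Finset.prod_insert hi]
        refine ⟨P.reg_mul (reg_pow P h3 _) ih.1, ?_⟩
        rw [P.red_mul (reg_pow P h3 _) ih.1, P.red_pow h3, ih.2]
    exact h2 _
  have ht : ∀ a ∈ F.support, P.Reg (t a) ∧ P.red (t a) =
      if wt α a = h then algebraMap k P.RF (coeff a F) * ∏ i, P.red (un P π (x i)) ^ a i
      else 0 := by
    intro a ha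
    have h1 := hh a ha
    have h2 : P.Reg (algebraMap k K (coeff a F) * ∏ i, un P π (x i) ^ a i) :=
      P.reg_mul (P.reg_const _) (hmon a).1
    have h3 : P.ord (π ^ (wt α a - h)) = wt α a - h := by rw [P.ord_zpow, hπ, mul_one]
    have h4 : P.Reg (π ^ (wt α a - h)) := Or.inr (by rw [h3]; linarith)
    refine ⟨P.reg_mul h2 h4, ?_⟩
    change P.red (algebraMap k K (coeff a F) * (∏ i, un P π (x i) ^ a i) * π ^ (wt α a - h)) = _
    rw [P.red_mul h2 h4, P.red_mul (P.reg_const _) (hmon a).1, (hmon a).2]
    split_ifs with h5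
    · rw [h5, sub_self, zpow_zero, P.red_one, mul_one]
      rfl
    · have h6 : P.red (π ^ (wt α a - h)) = 0 := by
        rw [P.red_eq_zero_iff h4, h3]
        right
        rcases lt_or_eq_of_le h1 with h7 | h7
        · linarith
        · exact absurd h7.symm h5
      rw [h6, mul_zero]
  have hsum : ∀ s ⊆ F.support, P.Reg (∑ a ∈ s, t a) ∧ P.red (∑ a ∈ s, t a) =
      ∑ a ∈ s, if wt α a = h then algebraMap k P.RF (coeff a F) *
        ∏ i, P.red (un P π (x i)) ^ a i else 0 := by
    intro s
    induction s using Finset.induction_on with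
    | empty => intro _; simp [P.reg_zero, P.red_zero]
    | insert a s ha ih =>
      intro hs
      have h1 := ih fun b hb => hs (Finset.mem_insert_of_mem hb)
      have h2 := ht a (hs (Finset.mem_insert_self _ _))
      rw [Finset.sum_insert ha, Finset.sum_insert ha]
      exact ⟨P.reg_add h2.1 h1.1, by rw [P.red_add h2.1 h1.1, h2.2, h1.2]⟩
  obtain ⟨h1, h2⟩ := hsum F.support subset_rfl
  rw [hterm]
  refine ⟨h1, h2.trans ?_⟩
  unfold part
  rw [map_sum, Finset.sum_filter]
  refine Finset.sum_congr rfl fun a _ => ?_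
  split_ifs with h3
  · rw [aeval_monomial, Finsupp.prod_fintype _ _ (by simp)]
  · rfl

/-- values at regular points -/
theorem red_value0 (x : Fin n → K) (hx : ∀ i, P.Reg (x i)) (F : MvPolynomial (Fin n) k) :
    P.Reg (aeval x F) ∧ P.red (aeval x F) = aeval (fun i => P.red (x i)) F := by
  induction F using MvPolynomial.induction_on with
  | C c => rw [aeval_C, aeval_C]; exact ⟨P.reg_const c, rfl⟩
  | add f g hf hg =>
    rw [map_add, map_add]
    exact ⟨P.reg_add hf.1 hg.1, by rw [P.red_add hf.1 hg.1, hf.2, hg.2]⟩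
  | mul_X f i hf =>
    rw [map_mul, map_mul, aeval_X, aeval_X]
    exact ⟨P.reg_mul hf.1 (hx i), by rw [P.red_mul hf.1 (hx i), hf.2]⟩

end place

end Pool.Agent.Y199.NN
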