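import Mathlib

/-!
Linear algebra: determinants of matrices completed by dual vectors.
-/

set_option autoImplicit false

namespace Pool.Agent.Y199.NN

open Matrix

section det

variable {K : Type*} [Field K] {M R S : Type*} [Fintype M] [Fintype R] [Fintype S]
  [DecidableEq M] [DecidableEq R] [DecidableEq S]

/-- The determinant does not depend on the choice of the dual vectors. -/
theorem det_indep_aux (d : Matrix (M ⊕ R) M K) (N : Matrix R (M ⊕ R) K) (hd : N * d = 0)
    (u u' : Matrix (M ⊕ R) R K) (hu : N * u = 1) (hu' : N * u' = 1)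
    (h0 : (fromCols d u).det ≠ 0) : (fromCols d u').det = (fromCols d u).det := by
  have hunit : IsUnit (fromCols d u).det := isUnit_iff_ne_zero.2 h0
  obtain ⟨Y, hY⟩ : ∃ Y : Matrix (M ⊕ R) R K, u' = fromCols d u * Y :=
    ⟨(fromCols d u)⁻¹ * u', by rw [← Matrix.mul_assoc, mul_nonsing_inv _ hunit, Matrix.one_mul]⟩
  have hYd : Y = fromRows Y.toRows₁ Y.toRows₂ := (fromRows_toRows Y).symm
  have h1 : u' = d * Y.toRows₁ + u * Y.toRows₂ := by
    rw [hY]
    conv_lhs => rw [hYd]
    rw [fromCols_mul_fromRows]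
  have h2 : Y.toRows₂ = 1 := by
    have h3 : N * u' = N * (d * Y.toRows₁ + u * Y.toRows₂) := by rw [← h1]
    rw [hu', Matrix.mul_add, ← Matrix.mul_assoc, ← Matrix.mul_assoc, hd, hu, Matrix.zero_mul,
      Matrix.one_mul, zero_add] at h3
    exact h3.symm
  have h3 : fromCols d u' = fromCols d u * fromBlocks 1 Y.toRows₁ 0 1 := by
    rw [← fromRows_fromCols_eq_fromBlocks, fromCols_mul_fromRows, h1, h2, mul_fromCols,
      mul_fromCols]
    ext i j
    rcases j with j | j <;> simp
  rw [h3, det_mul, det_fromBlocks_zero₂₁, det_one, det_one, mul_one, mul_one]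

theorem det_indep (d : Matrix (M ⊕ R) M K) (N : Matrix R (M ⊕ R) K) (hd : N * d = 0)
    (u u' : Matrix (M ⊕ R) R K) (hu : N * u = 1) (hu' : N * u' = 1) :
    (fromCols d u').det = (fromCols d u).det := by
  by_cases h0 : (fromCols d u).det = 0
  · by_cases h1 : (fromCols d u').det = 0
    · rw [h0, h1]
    · exact (det_indep_aux d N hd u' u hu' hu h1).symm
  · exact det_indep_aux d N hd u u' hu hu' h0

/-- Scaling along the dual vectors. -/
theorem det_scale (d : Matrix (M ⊕ R) M K) (u : Matrix (M ⊕ R) R K) (W : Matrix S (M ⊕ R) K)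
    (V : Matrix (M ⊕ R) S K) (hWu : W * u = 0) (hWV : W * V = 1) (g : S → K) :
    (fromCols (d + V * (diagonal (fun j => (g j)⁻¹ - 1) * (W * d))) u).det =
      (∏ j, (g j)⁻¹) * (fromCols d u).det := by
  set A : Matrix (M ⊕ R) (M ⊕ R) K := 1 + (V * diagonal (fun j => (g j)⁻¹ - 1)) * W with hA
  have h1 : A * fromCols d u =
      fromCols (d + V * (diagonal (fun j => (g j)⁻¹ - 1) * (W * d))) u := by
    rw [mul_fromCols, hA, Matrix.add_mul, Matrix.add_mul, Matrix.one_mul, Matrix.one_mul,
      Matrix.mul_assoc _ W u, hWu, Matrix.mul_zero, add_zero]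
    congr 2
    simp only [Matrix.mul_assoc]
  have h2 : A.det = ∏ j, (g j)⁻¹ := by
    rw [hA, det_one_add_mul_comm, ← Matrix.mul_assoc, hWV, Matrix.one_mul]
    have h3 : (1 : Matrix S S K) + diagonal (fun j => (g j)⁻¹ - 1) = diagonal fun j => (g j)⁻¹ := by
      rw [← diagonal_one, diagonal_add]
      congr 1
      funext j
      ring
    rw [h3, det_diagonal]
  rw [← h1, det_mul, h2]

end det

section local_ring

variable {O : Type*} [CommRing O] {s t : Type*} [Fintype s] [Fintype t] [DecidableEq t]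

theorem right_inv_field {κ : Type*} [Field κ] (A : Matrix t s κ) (hA : LinearIndependent κ A.row) :
    ∃ B : Matrix s t κ, A * B = 1 := by
  rw [← mulVec_surjective_iff_exists_right_inverse]
  have h1 := hA.rank_matrix
  have h2 : LinearMap.range A.mulVecLin = ⊤ := by
    apply Submodule.eq_top_of_finrank_eq
    rw [Module.finrank_pi]
    exact h1
  exact LinearMap.range_eq_top.1 h2

theorem exists_right_inv {κ : Type*} [Field κ] (f : O →+* κ) (hf : Function.Surjective f)
    (hker : ∀ z, f z ≠ 0 → IsUnit z) (A : Matrix t s O)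
    (hA : LinearIndependent κ (A.map f).row) : ∃ B : Matrix s t O, A * B = 1 := by
  obtain ⟨B0, hB0⟩ := right_inv_field (A.map f) hA
  choose g hg using hf
  let B1 : Matrix s t O := B0.map g
  have h1 : B1.map f = B0 := by
    ext i j
    exact hg _
  have h2 : f (A * B1).det = 1 := by
    rw [RingHom.map_det]
    change ((A * B1).map f).det = 1
    rw [Matrix.map_mul, h1, hB0, det_one]
  have h3 : IsUnit (A * B1).det := hker _ (by rw [h2]; exact one_ne_zero)
  exact ⟨B1 * (A * B1)⁻¹, by rw [← Matrix.mul_assoc, mul_nonsing_inv _ h3]⟩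

end local_ring

end Pool.Agent.Y199.NN
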