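import Pool.Agent.Y199.NN.Place

/-!
A transcendence basis among the coordinates of the generic point, and the function field in one
variable over the other elements of the basis.
-/

set_option autoImplicit false

open FF Cardinal

namespace Pool.Agent.Y199.NN

variable {k K' : Type} [Field k] [Field K'] [Algebra k K']

theorem pick {m n : ℕ} (htr : Algebra.trdeg k K' = m) (x : Fin n → K')
    (hx : Algebra.IsAlgebraic (Algebra.adjoin k (Set.range x)) K') (i0 : Fin n)
    (htrans : Transcendental k (x i0)) :
    ∃ (J : Type) (idx : J → Fin n), Finite J ∧ Nat.card J + 1 = m ∧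
      IsTranscendenceBasis k (fun o : Option J => o.elim (x i0) (fun j => x (idx j))) := by
  classical
  have hs : AlgebraicIndepOn k id ({x i0} : Set K') := by
    change AlgebraicIndependent k (fun i : ({x i0} : Set K') => id (i : K'))
    rw [algebraicIndependent_unique_type_iff]
    exact htrans
  obtain ⟨u, hu1, hu2, hu⟩ := exists_isTranscendenceBasis_between (R := k) {x i0} (Set.range x)
    (by rintro _ rfl; exact ⟨i0, rfl⟩) hs
  let J : Type := {y : K' // y ∈ u ∧ y ≠ x i0}
  have hu1' : x i0 ∈ u := hu1 rfl
  have hJ : ∀ y : J, ∃ i, x i = y.1 := fun y => hu2 y.2.1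
  choose idx hidx using hJ
  let e : Option J ≃ u :=
    { toFun := fun o => o.elim ⟨x i0, hu1'⟩ (fun y => ⟨y.1, y.2.1⟩)
      invFun := fun y => if h : (y : K') = x i0 then none else some ⟨y.1, y.2, h⟩
      left_inv := by
        rintro (_ | y)
        · simp
        · have := y.2.2
          simp [this]
      right_inv := by
        intro y
        by_cases h : (y : K') = x i0
        · beta_reduce
          rw [dif_pos h]
          exact Subtype.ext h.symm
        · beta_reduce
          rw [dif_neg h]
          rfl }
  have hbas : IsTranscendenceBasis k (fun o : Option J => o.elim (x i0) (fun j => x (idx j))) := by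
    have h1 := hu.comp_equiv e
    have h2 : (fun o : Option J => o.elim (x i0) (fun j => x (idx j))) =
        (fun y : u => (y : K')) ∘ e := by
      funext o
      rcases o with _ | y
      · rfl
      · exact hidx y
    rw [h2]
    exact h1
  have hcard := hbas.cardinalMk_eq_trdeg
  rw [htr] at hcard
  have hfin : Finite (Option J) := by
    rw [← Cardinal.lt_aleph0_iff_finite, hcard]
    exact Cardinal.natCast_lt_aleph0
  have hfinJ : Finite J := Finite.of_injective (some : J → Option J) (Option.some_injective J)
  refine ⟨J, idx, hfinJ, ?_, hbas⟩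
  have h1 : Nat.card (Option J) = m := by
    rw [Nat.card, hcard]
    simp
  rw [← h1, Finite.card_option]

/-- the function field in one variable -/
theorem isFF_of {J : Type} [Finite J] {m : ℕ} (htr : Algebra.trdeg k K' = m)
    (hJ : Nat.card J + 1 = m) [Algebra.EssFiniteType k K'] (y : J → K')
    (hy : AlgebraicIndependent k y) :
    IsFF (IntermediateField.adjoin k (Set.range y)) K' ∧
      Algebra.trdeg k (IntermediateField.adjoin k (Set.range y)) = (Nat.card J : ℕ) := by
  set k₁ := IntermediateField.adjoin k (Set.range y) with hk₁
  have h1 : Algebra.trdeg k k₁ = (Nat.card J : ℕ) := by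
    have h2 := (basis_adjoin y hy).cardinalMk_eq_trdeg
    rw [← h2]
    exact (Nat.cast_card).symm
  refine ⟨⟨Algebra.EssFiniteType.of_comp k k₁ K', ?_⟩, h1⟩
  have h3 := _root_.trdeg_add_eq k k₁ (A := K')
  rw [h1, htr, ← hJ] at h3
  push_cast at h3
  exact Cardinal.eq_of_add_eq_add_left h3 Cardinal.natCast_lt_aleph0

end Pool.Agent.Y199.NN
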