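import Pool.Agent.Y199.NN.Emb
import Pool.Agent.Helper386.D5V.Helper386_FF_RR

/-!
Places of a field of transcendence degree `m` over a subfield of transcendence degree `m - 1`.
-/

set_option autoImplicit false

open FF Cardinal

namespace Pool.Agent.Y199.NN

theorem exists_good_place {k₁ K' k : Type} [Field k₁] [CharZero k₁] [Field K'] [Algebra k₁ K']
    [IsFF k₁ K'] [Field k] [Infinite k] (ρ : k →+* k₁) (f : K') (hf : Transcendental k₁ f)
    (S : Finset K') : ∃ (c : k) (P : Place k₁ K'), 0 < P.ord (f - algebraMap k₁ K' (ρ c)) ∧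
      ∀ s ∈ S, P.ord s = 0 := by
  classical
  have hne : ∀ c : k, f - algebraMap k₁ K' (ρ c) ≠ 0 := by
    intro c h
    apply hf
    rw [sub_eq_zero.1 h]
    exact isAlgebraic_algebraMap _
  have hex : ∀ c : k, ∃ P : Place k₁ K', 0 < P.ord (f - algebraMap k₁ K' (ρ c)) := by
    intro c
    have ht : Transcendental k₁ (f - algebraMap k₁ K' (ρ c)) := by
      intro h
      apply hf
      have := h.add (isAlgebraic_algebraMap (ρ c))
      rwa [sub_add_cancel] at this
    obtain ⟨T, hT, -, hsum⟩ := zeros (k := k₁) (K := K') ht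
    have hfin := IsFF.finite (k := k₁) (K := K') ht
    have hpos : 0 < ∑ w ∈ T, (w.ord (f - algebraMap k₁ K' (ρ c))).toNat * w.deg := by
      rw [hsum]
      exact Module.finrank_pos
    obtain ⟨P, hP, -⟩ := Finset.exists_ne_zero_of_sum_ne_zero hpos.ne'
    exact ⟨P, (hT P).1 hP⟩
  choose g hg using hex
  have hinj : Function.Injective g := by
    intro c c' hcc
    by_contra hne'
    have h1 := hg c
    have h2 := hg c'
    rw [← hcc] at h2
    have h3 : ρ c' - ρ c ≠ 0 := by
      rw [← map_sub]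
      exact (map_ne_zero ρ).2 (sub_ne_zero.2 (Ne.symm hne'))
    have h4 : (f - algebraMap k₁ K' (ρ c)) - (f - algebraMap k₁ K' (ρ c')) =
        algebraMap k₁ K' (ρ c' - ρ c) := by
      rw [map_sub]; ring
    have h5 := (g c).ord_sub (hne c) (hne c') (by
      rw [h4]; exact (map_ne_zero _).2 h3)
    rw [h4, (g c).ord_const h3] at h5
    have := lt_min h1 h2
    omega
  have hfinT : {P : Place k₁ K' | ∃ s ∈ S, P.ord s ≠ 0}.Finite := by
    have h1 : {P : Place k₁ K' | ∃ s ∈ S, P.ord s ≠ 0} = ⋃ s ∈ S, {P : Place k₁ K' | P.ord s ≠ 0} := by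
      ext P
      simp
    rw [h1]
    exact S.finite_toSet.biUnion fun s _ => finite_support s
  have hinf : (Set.range g).Infinite := Set.infinite_range_of_injective hinj
  obtain ⟨P, ⟨c, rfl⟩, hP⟩ := hinf.exists_notMem_finite hfinT
  refine ⟨c, g c, hg c, fun s hs => ?_⟩
  by_contra hne'
  exact hP ⟨s, hs, hne'⟩

section trdeg

variable {k K' : Type} [Field k] [Field K'] [Algebra k K']

theorem basis_adjoin {J : Type} (y : J → K') (hy : AlgebraicIndependent k y) :
    IsTranscendenceBasis k (fun j => (⟨y j, IntermediateField.subset_adjoin k _ ⟨j, rfl⟩⟩ :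
      IntermediateField.adjoin k (Set.range y))) := by
  set k₁ := IntermediateField.adjoin k (Set.range y) with hk₁
  let b : J → k₁ := fun j => ⟨y j, IntermediateField.subset_adjoin k _ ⟨j, rfl⟩⟩
  have hb : AlgebraicIndependent k b := AlgebraicIndependent.of_comp (k₁.val) hy
  rw [hb.isTranscendenceBasis_iff_isAlgebraic]
  constructor
  intro z
  have hlift : ∀ f ∈ Algebra.adjoin k (Set.range y), ∃ f' ∈ Algebra.adjoin k (Set.range b),
      (f' : K') = f := by
    intro f hf
    have h1 : (Algebra.adjoin k (Set.range b)).map k₁.val = Algebra.adjoin k (Set.range y) := by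
      rw [AlgHom.map_adjoin, ← Set.range_comp]
      rfl
    rw [← h1] at hf
    obtain ⟨f', hf', hff⟩ := hf
    exact ⟨f', hf', hff⟩
  obtain ⟨f, hf, g, hg, hz⟩ := (IntermediateField.mem_adjoin_iff_div).1 z.2
  obtain ⟨f', hf', hff⟩ := hlift f hf
  obtain ⟨g', hg', hgg⟩ := hlift g hg
  have hz' : z = f' / g' := by
    apply Subtype.ext
    rw [hz]
    change _ = (f' : K') / (g' : K')
    rw [hff, hgg]
  rw [hz', div_eq_mul_inv]
  exact (isAlgebraic_algebraMap (⟨f', hf'⟩ : Algebra.adjoin k (Set.range b))).mul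
    (isAlgebraic_algebraMap (⟨g', hg'⟩ : Algebra.adjoin k (Set.range b))).inv

end trdeg

end Pool.Agent.Y199.NN
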