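import Pool.Agent.Y199.NN.Pick

/-!
From a curve through the generic point to a family of curves with a parameter space of dimension
one less.
-/

set_option autoImplicit false

open FF Cardinal

namespace Pool.Agent.Y199.NN

variable {k : Type} [Field k]

theorem map_aeval_poly {A B : Type} [CommRing A] [Algebra k A] [CommRing B] [Algebra k B]
    (γ : A →ₐ[k] B) {n : ℕ} (Q : Fin n → Polynomial A) (R : MvPolynomial (Fin n) k) :
    (MvPolynomial.aeval Q R).map (γ : A →+* B) =
      MvPolynomial.aeval (fun i => (Q i).map (γ : A →+* B)) R := by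
  have h1 : (Polynomial.mapAlgHom γ).comp (MvPolynomial.aeval Q) =
      MvPolynomial.aeval (fun i => (Q i).map (γ : A →+* B)) := by
    apply MvPolynomial.algHom_ext
    intro i
    rw [AlgHom.comp_apply, MvPolynomial.aeval_X, MvPolynomial.aeval_X]
    rfl
  exact congrArg (fun f => f R) (congrArg DFunLike.coe h1)

theorem eval_aeval_poly {A : Type} [CommRing A] [Algebra k A] {n : ℕ} (Q : Fin n → Polynomial A)
    (t : A) (R : MvPolynomial (Fin n) k) :
    (MvPolynomial.aeval Q R).eval t = MvPolynomial.aeval (fun i => (Q i).eval t) R := by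
  have h1 : ((Polynomial.aeval (R := A) t).restrictScalars k).comp (MvPolynomial.aeval Q) =
      MvPolynomial.aeval (fun i => (Q i).eval t) := by
    apply MvPolynomial.algHom_ext
    intro i
    rw [AlgHom.comp_apply, MvPolynomial.aeval_X, MvPolynomial.aeval_X]
    change Polynomial.aeval t (Q i) = _
    rw [Polynomial.coe_aeval_eq_eval]
  have h2 := congrArg (fun f => f R) (congrArg DFunLike.coe h1)
  rw [← h2]
  change _ = Polynomial.aeval t (MvPolynomial.aeval Q R)
  rw [Polynomial.coe_aeval_eq_eval]

/-- the limit curve satisfies the same equations -/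
theorem limit_iff {K' M : Type} [Field K'] [Algebra k K'] [Field M] [Algebra k M] {n : ℕ}
    (x : Fin n → K') (q' : Fin n → Polynomial M) {J : Type} (i0 : Fin n) (idx : J → Fin n)
    (hbas : IsTranscendenceBasis k (fun o : Option J => o.elim (x i0) (fun j => x (idx j))))
    (hind : AlgebraicIndependent k (fun j => (q' (idx j)).eval 0)) (c : k)
    (hc : (q' i0).eval 0 = algebraMap k M c) (hdeg : 0 < (q' i0).natDegree)
    (hdir : ∀ R : MvPolynomial (Fin n) k, MvPolynomial.aeval x R = 0 →
      MvPolynomial.aeval q' R = 0) (R : MvPolynomial (Fin n) k)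
    (hR : MvPolynomial.aeval q' R = 0) : MvPolynomial.aeval x R = 0 := by
  let f2 : Polynomial M →ₐ[k] M := (Polynomial.aeval (R := M) (0 : M)).restrictScalars k
  have hf2 : ∀ p, f2 p = p.eval 0 := fun p => by
    change Polynomial.aeval (0 : M) p = _
    rw [Polynomial.coe_aeval_eq_eval]
  have hq : AlgebraicIndependent k (fun j => q' (idx j)) := by
    refine AlgebraicIndependent.of_comp f2 ?_
    have h1 : (f2 ∘ fun j => q' (idx j)) = fun j => (q' (idx j)).eval 0 := by
      funext j
      exact hf2 _
    rw [h1]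
    exact hind
  have htr : Transcendental (Algebra.adjoin k (Set.range fun j => q' (idx j))) (q' i0) := by
    intro halg
    have h1 : IsAlgebraic (Algebra.adjoin k (Set.range fun j => q' (idx j)))
        (q' i0 - algebraMap k (Polynomial M) c) := by
      refine halg.sub ?_
      exact isAlgebraic_algebraMap (algebraMap k (Algebra.adjoin k (Set.range fun j => q' (idx j))) c)
    have h2 := inj_of_alg f2 (fun j => q' (idx j)) (by
      have h3 : (fun j => f2 (q' (idx j))) = fun j => (q' (idx j)).eval 0 := by
        funext j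
        exact hf2 _
      rw [h3]
      exact hind) _ h1 (by
      rw [map_sub, hf2, hc, AlgHom.commutes, sub_self])
    have h3 : q' i0 = Polynomial.C (algebraMap k M c) := sub_eq_zero.1 h2
    rw [h3, Polynomial.natDegree_C] at hdeg
    exact lt_irrefl _ hdeg
  have hall : AlgebraicIndependent k (fun o : Option J => o.elim (q' i0) (fun j => q' (idx j))) :=
    (hq.option_iff_transcendental _).2 htr
  -- the homomorphism
  let ex : MvPolynomial (Fin n) k →ₐ[k] K' := MvPolynomial.aeval x
  let A := ex.range
  have hsurj : Function.Surjective ex.rangeRestrict := ex.rangeRestrict_surjective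
  let g : MvPolynomial (Fin n) k →ₐ[k] Polynomial M := MvPolynomial.aeval q'
  have hk : RingHom.ker ex.rangeRestrict ≤ RingHom.ker g := by
    intro P hP
    rw [RingHom.mem_ker] at hP ⊢
    exact hdir P (congrArg Subtype.val hP)
  let f1 : A →ₐ[k] Polynomial M := AlgHom.liftOfSurjective ex.rangeRestrict hsurj g hk
  have hf1 : ∀ P, f1 (ex.rangeRestrict P) = g P := fun P =>
    AlgHom.liftOfSurjective_apply ex.rangeRestrict hsurj g hk P
  let b : Option J → A := fun o => o.elim (ex.rangeRestrict (MvPolynomial.X i0))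
    (fun j => ex.rangeRestrict (MvPolynomial.X (idx j)))
  have hbv : ∀ o, ((b o : A) : K') = o.elim (x i0) (fun j => x (idx j)) := by
    rintro (_ | j)
    · exact MvPolynomial.aeval_X x i0
    · exact MvPolynomial.aeval_X x (idx j)
  have hb1 : AlgebraicIndependent k (fun o => f1 (b o)) := by
    have h1 : (fun o => f1 (b o)) =
        fun o : Option J => o.elim (q' i0) (fun j => q' (idx j)) := by
      funext o
      rcases o with _ | j
      · exact (hf1 _).trans (MvPolynomial.aeval_X q' i0)
      · exact (hf1 _).trans (MvPolynomial.aeval_X q' (idx j))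
    rw [h1]
    exact hall
  have hz : IsAlgebraic (Algebra.adjoin k (Set.range b)) (ex.rangeRestrict R) := by
    have h1 : IsAlgebraic (Algebra.adjoin k
        (Set.range fun o : Option J => o.elim (x i0) (fun j => x (idx j))))
        ((ex.rangeRestrict R : A) : K') := hbas.isAlgebraic.isAlgebraic _
    have hmap : (Algebra.adjoin k (Set.range b)).map A.val =
        Algebra.adjoin k (Set.range fun o : Option J => o.elim (x i0) (fun j => x (idx j))) := by
      rw [AlgHom.map_adjoin, ← Set.range_comp]
      congr 2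
      funext o
      exact hbv o
    let f : Algebra.adjoin k (Set.range b) →+* Algebra.adjoin k
        (Set.range fun o : Option J => o.elim (x i0) (fun j => x (idx j))) :=
      (A.val.toRingHom.comp (Algebra.adjoin k (Set.range b)).val.toRingHom).codRestrict
        (Algebra.adjoin k (Set.range fun o : Option J => o.elim (x i0) (fun j => x (idx j))))
        (fun z => by
          rw [← hmap]
          exact ⟨z.1, z.2, rfl⟩)
    have hfs : Function.Surjective f := by
      intro z
      obtain ⟨y, hy, hyz⟩ := hmap.ge z.2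
      exact ⟨⟨y, hy⟩, Subtype.ext hyz⟩
    exact IsAlgebraic.of_ringHom_of_comp_eq (f := f) (g := (A.val : A →+* K')) h1 hfs
      Subtype.val_injective rfl
  have h0 := inj_of_alg f1 b hb1 (ex.rangeRestrict R) hz ((hf1 R).trans hR)
  exact congrArg Subtype.val h0

/-- **Specialization.** -/
theorem spec [CharZero k] {K' : Type} [Field K'] [Algebra k K']
    [Algebra.EssFiniteType k K'] {m n : ℕ} (htr : Algebra.trdeg k K' = m)
    (x : Fin n → K') (hx : Algebra.IsAlgebraic (Algebra.adjoin k (Set.range x)) K')
    (q : Fin n → Polynomial K') (hq0 : ∀ i, (q i).eval 0 = x i) (i0 : Fin n)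
    (hi0 : 0 < (q i0).natDegree) (htrans : Transcendental k (x i0))
    (hid : ∀ P : MvPolynomial (Fin n) k, MvPolynomial.aeval x P = 0 →
      MvPolynomial.aeval q P = 0)
    {κ : Type} [Finite κ] (G : κ → MvPolynomial (Fin n) k)
    (hG : ∀ l, ∃ c : K', c ≠ 0 ∧ MvPolynomial.aeval q (G l) = Polynomial.C c) :
    ∃ (M : Type) (_ : Field M) (_ : Algebra k M) (q' : Fin n → Polynomial M),
      Algebra.EssFiniteType k M ∧ Algebra.trdeg k M + 1 = m ∧
      (∀ P : MvPolynomial (Fin n) k, MvPolynomial.aeval x P = 0 ↔
        MvPolynomial.aeval q' P = 0) ∧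
      ∀ l, ∃ c : M, c ≠ 0 ∧ MvPolynomial.aeval q' (G l) = Polynomial.C c := by
  classical
  have := Fintype.ofFinite κ
  obtain ⟨J, idx, hJf, hJm, hbas⟩ := pick htr x hx i0 htrans
  have hopt := (AlgebraicIndependent.option_iff (x := fun j => x (idx j)) (a := x i0)).1 hbas.1
  obtain ⟨hy, hyt⟩ := hopt
  obtain ⟨hFF, htr1⟩ := isFF_of htr hJm (fun j => x (idx j)) hy
  set k₁ := IntermediateField.adjoin k (Set.range fun j => x (idx j)) with hk₁
  have hc1 : CharZero k₁ := charZero_of_injective_algebraMap (algebraMap k k₁).injective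
  have hft : Transcendental k₁ (x i0) := by
    intro halg
    apply hyt
    open scoped IntermediateField.algebraAdjoinAdjoin in
    exact (IsFractionRing.isAlgebraic_iff (Algebra.adjoin k (Set.range fun j => x (idx j)))
      (IntermediateField.adjoin k (Set.range fun j => x (idx j))) K').2 halg
  choose d hd0 hd using hG
  let S : Finset K' := (Finset.univ.biUnion fun i => (q i).support.image (q i).coeff) ∪
    Finset.univ.image d
  obtain ⟨c, P, hPc, hPS⟩ := exists_good_place (k := k) (algebraMap k k₁) (x i0) hft S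
  have hcoef : ∀ i e, P.Reg ((q i).coeff e) ∧ ((q i).coeff e ≠ 0 → P.ord ((q i).coeff e) = 0) := by
    intro i e
    by_cases h0 : (q i).coeff e = 0
    · exact ⟨Or.inl h0, fun h => absurd h0 h⟩
    · have h1 : P.ord ((q i).coeff e) = 0 := by
        apply hPS
        refine Finset.mem_union_left _ (Finset.mem_biUnion.2 ⟨i, Finset.mem_univ i, ?_⟩)
        exact Finset.mem_image.2 ⟨e, Polynomial.mem_support_iff.2 h0, rfl⟩
      exact ⟨Or.inr h1.ge, fun _ => h1⟩
  have hdl : ∀ l, P.ord (d l) = 0 := fun l => hPS _ (Finset.mem_union_right _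
    (Finset.mem_image.2 ⟨l, Finset.mem_univ l, rfl⟩))
  -- algebra structures over `k`
  have hregk : ∀ a : k, P.Reg (algebraMap k K' a) := by
    intro a
    have h1 : algebraMap k K' a = algebraMap k₁ K' (algebraMap k k₁ a) := rfl
    rw [h1]
    exact P.reg_const _
  let ρ : k →+* P.O := (algebraMap k K').codRestrict P.O hregk
  let _ : Algebra k P.O := ρ.toAlgebra
  let _ : Algebra k P.RF := (P.resHom.comp ρ).toAlgebra
  have hst : IsScalarTower k k₁ P.RF := IsScalarTower.of_algebraMap_eq fun a => by
    change P.resHom (ρ a) = P.red (algebraMap k₁ K' (algebraMap k k₁ a))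
    rw [P.red_of_reg (P.reg_const _)]
    rfl
  let α : P.O →ₐ[k] K' := { P.O.subtype with commutes' := fun _ => rfl }
  let β : P.O →ₐ[k] P.RF := { P.resHom with commutes' := fun _ => rfl }
  have hα : Function.Injective (α : P.O →+* K') := Subtype.val_injective
  have hlift : ∀ i, ∃ Q : Polynomial P.O, Q.map (α : P.O →+* K') = q i := by
    intro i
    have h1 : q i ∈ Polynomial.lifts (α : P.O →+* K') := by
      rw [Polynomial.lifts_iff_coeff_lifts]
      intro e
      exact ⟨⟨(q i).coeff e, (hcoef i e).1⟩, rfl⟩
    exact (Polynomial.mem_lifts _).1 h1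
  choose Q hQ using hlift
  let q' : Fin n → Polynomial P.RF := fun i => (Q i).map (β : P.O →+* P.RF)
  have hQα : ∀ R : MvPolynomial (Fin n) k, (MvPolynomial.aeval Q R).map (α : P.O →+* K') =
      MvPolynomial.aeval q R := by
    intro R
    rw [map_aeval_poly]
    congr 2
    funext i
    exact hQ i
  have hQβ : ∀ R : MvPolynomial (Fin n) k, (MvPolynomial.aeval Q R).map (β : P.O →+* P.RF) =
      MvPolynomial.aeval q' R := fun R => map_aeval_poly β Q R
  have hdir : ∀ R : MvPolynomial (Fin n) k, MvPolynomial.aeval x R = 0 →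
      MvPolynomial.aeval q' R = 0 := by
    intro R hR
    have h1 : MvPolynomial.aeval Q R = 0 := by
      apply Polynomial.map_injective _ hα
      rw [hQα, hid R hR, Polynomial.map_zero]
    rw [← hQβ, h1, Polynomial.map_zero]
  have hQ0 : ∀ i, (((Q i).eval 0 : P.O) : K') = x i := by
    intro i
    rw [← hq0 i, ← hQ i, Polynomial.eval_map, ← Polynomial.coeff_zero_eq_eval_zero,
      Polynomial.eval₂_at_zero]
    rfl
  have hx'0 : ∀ i, (q' i).eval 0 = P.red (x i) := by
    intro i
    have h1 : (q' i).eval 0 = P.resHom ((Q i).eval 0) := by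
      change ((Q i).map (β : P.O →+* P.RF)).eval 0 = _
      rw [Polynomial.eval_map, Polynomial.eval₂_at_zero, ← Polynomial.coeff_zero_eq_eval_zero]
      rfl
    have h2 : P.Reg (x i) := by
      rw [← hQ0 i]
      exact ((Q i).eval 0).2
    rw [h1, P.red_of_reg h2]
    congr 1
    exact Subtype.ext (hQ0 i)
  have hind : AlgebraicIndependent k (fun j => (q' (idx j)).eval 0) := by
    have hb := (basis_adjoin (fun j => x (idx j)) hy).1
    have h1 := hb.map' (f := (IsScalarTower.toAlgHom k k₁ P.RF))
      (algebraMap k₁ P.RF).injective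
    have h2 : (fun j => (q' (idx j)).eval 0) = (IsScalarTower.toAlgHom k k₁ P.RF) ∘
        (fun j => (⟨x (idx j), IntermediateField.subset_adjoin k _ ⟨j, rfl⟩⟩ : k₁)) := by
      funext j
      rw [hx'0]
      rfl
    rw [h2]
    exact h1
  have hc' : (q' i0).eval 0 = algebraMap k P.RF c := by
    rw [hx'0]
    have hxi : P.Reg (x i0) := by
      rw [← hQ0 i0]
      exact ((Q i0).eval 0).2
    have h1 : P.red (x i0 - algebraMap k₁ K' (algebraMap k k₁ c)) = 0 := by
      rw [P.red_eq_zero_iff (Or.inr hPc.le)]
      exact Or.inr hPc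
    rw [P.red_sub hxi (P.reg_const _)] at h1
    rw [sub_eq_zero.1 h1]
    exact (IsScalarTower.algebraMap_apply k k₁ P.RF c).symm
  have hdeg : 0 < (q' i0).natDegree := by
    refine lt_of_lt_of_le hi0 ?_
    apply Polynomial.le_natDegree_of_ne_zero
    change ((Q i0).map (β : P.O →+* P.RF)).coeff _ ≠ 0
    rw [Polynomial.coeff_map]
    have h0 : ∀ e, (((Q i0).coeff e : P.O) : K') = (q i0).coeff e := by
      intro e
      rw [← hQ i0, Polynomial.coeff_map]
      rfl
    have h1 := h0 (q i0).natDegree
    have h2 : (q i0).coeff (q i0).natDegree ≠ 0 := by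
      rw [Polynomial.coeff_natDegree]
      intro h
      rw [Polynomial.leadingCoeff_eq_zero.1 h, Polynomial.natDegree_zero] at hi0
      exact lt_irrefl _ hi0
    have h3 := P.red_ne_zero h2 ((hcoef i0 _).2 h2)
    intro h4
    apply h3
    rw [P.red_of_reg (hcoef i0 _).1, ← h4]
    change P.resHom _ = P.resHom _
    congr 1
    exact Subtype.ext h1.symm
  refine ⟨P.RF, inferInstance, inferInstance, q', ?_, ?_, fun R => ⟨hdir R, fun hR => ?_⟩,
    fun l => ?_⟩
  · have h1 : Algebra.EssFiniteType k k₁ := by
      have hfin : Finite (Set.range fun j => x (idx j)) := Set.finite_range _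
      exact (IntermediateField.essFiniteType_iff).2
        ⟨(Set.finite_range fun j => x (idx j)).toFinset, by simp [hk₁]⟩
    have h2 : FiniteDimensional k₁ P.RF := inferInstance
    exact Algebra.EssFiniteType.comp k k₁ P.RF
  · have h1 := _root_.trdeg_add_eq k k₁ (A := P.RF)
    have h2 : FiniteDimensional k₁ P.RF := inferInstance
    have h3 : Algebra.trdeg k₁ P.RF = 0 := _root_.trdeg_eq_zero_iff.2 inferInstance
    rw [h3, add_zero, htr1] at h1
    rw [← h1, ← hJm]
    push_cast
    rfl
  · exact limit_iff x q' i0 idx hbas hind c hc' hdeg hdir R hR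
  · have hreg : P.Reg (d l) := Or.inr (hdl l).ge
    refine ⟨P.resHom ⟨d l, hreg⟩, ?_, ?_⟩
    · rw [← P.red_of_reg hreg]
      exact P.red_ne_zero (hd0 l) (hdl l)
    · have h1 : MvPolynomial.aeval Q (G l) = Polynomial.C ⟨d l, hreg⟩ := by
        apply Polynomial.map_injective _ hα
        rw [hQα, hd l, Polynomial.map_C]
        rfl
      rw [← hQβ, h1, Polynomial.map_C]
      rfl

end Pool.Agent.Y199.NN
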