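import Pool.Agent.Y199.NN.Spec
import Pool.Agent.Y199.NN.Form
import Pool.Agent.Y199.NN.Curve
import Pool.Agent.Y199.NN.NegA1

/-!
`A¹`-uniruledness from a curve through the generic point.
-/

set_option autoImplicit false

open FF Cardinal Pool.Agent.W619.PQ Pool.Agent.W619.PL

namespace Pool.Agent.Y199.NN

variable {k K : Type} [Field k] [Field K] [Algebra k K] {n m : ℕ} {ι κ : Type}

theorem reg_poly {M : Type} [Field M] (w : Place M (RatFunc M)) (hw : w.Reg RatFunc.X)
    (p : Polynomial M) : w.Reg (algebraMap (Polynomial M) (RatFunc M) p) := by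
  induction p using Polynomial.induction_on' with
  | add p q hp hq => rw [map_add]; exact w.reg_add hp hq
  | monomial e a =>
    rw [← Polynomial.C_mul_X_pow_eq_monomial, map_mul, map_pow, RatFunc.algebraMap_C,
      RatFunc.algebraMap_X]
    exact w.reg_mul (w.reg_const a) (reg_pow w hw e)

/-- **From a curve through the generic point to `A¹`-uniruledness.** -/
theorem a1_of_curve [IsAlgClosed k] [CharZero k] [Finite κ] {F : ι → MvPolynomial (Fin n) k}
    {G : κ → MvPolynomial (Fin n) k} {x : Fin n → K}
    (hgen : IntermediateField.adjoin k (Set.range x) = ⊤) (htr : Algebra.trdeg k K = m)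
    (hmin : RingHom.ker (MvPolynomial.aeval x : MvPolynomial (Fin n) k →ₐ[k] K) ∈
      (Ideal.span (Set.range F)).minimalPrimes) (hG : ∀ l, MvPolynomial.aeval x (G l) ≠ 0)
    {L : Type} [Field L] [Algebra k L] [Algebra K L] [IsScalarTower k K L]
    [Algebra.IsAlgebraic K L] (q : Fin n → Polynomial L)
    (hq0 : ∀ i, (q i).eval 0 = algebraMap K L (x i)) (i0 : Fin n) (hi0 : 0 < (q i0).natDegree)
    (hqF : ∀ j, MvPolynomial.aeval q (F j) = 0)
    (hqG : ∀ l, MvPolynomial.aeval q (G l) =
      Polynomial.C (algebraMap K L (MvPolynomial.aeval x (G l)))) :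
    IsA1Uniruled k K m (Boundary G x) := by
  classical
  -- a finite extension
  let S : Finset L := Finset.univ.biUnion fun i => (q i).support.image (q i).coeff
  let K' : IntermediateField K L := IntermediateField.adjoin K (S : Set L)
  have hfd : FiniteDimensional K K' := IntermediateField.finiteDimensional_adjoin fun z _ =>
    (Algebra.IsAlgebraic.isAlgebraic (R := K) z).isIntegral
  have hess : Algebra.EssFiniteType k K := by
    have h1 : (⊤ : IntermediateField k K).FG := by
      rw [← hgen]
      exact ⟨(Set.finite_range x).toFinset, by simp⟩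
    have h2 : Algebra.EssFiniteType k (⊤ : IntermediateField k K) :=
      (IntermediateField.essFiniteType_iff).2 h1
    exact (Algebra.EssFiniteType.iff_of_algEquiv (IntermediateField.topEquiv
      (F := k) (E := K))).1 h2
  have hess' : Algebra.EssFiniteType k K' := Algebra.EssFiniteType.comp k K K'
  have htr' : Algebra.trdeg k K' = m := by
    have h1 := _root_.trdeg_add_eq k K (A := K')
    have h2 : Algebra.trdeg K K' = 0 := _root_.trdeg_eq_zero_iff.2 inferInstance
    rw [← h1, h2, add_zero, htr]
  have hcoef : ∀ i e, (q i).coeff e ∈ K' := by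
    intro i e
    by_cases h0 : (q i).coeff e = 0
    · rw [h0]; exact zero_mem K'
    · apply IntermediateField.subset_adjoin
      exact Finset.mem_coe.2 (Finset.mem_biUnion.2 ⟨i, Finset.mem_univ i,
        Finset.mem_image.2 ⟨e, Polynomial.mem_support_iff.2 h0, rfl⟩⟩)
  let α : K' →ₐ[k] L := (K'.val).restrictScalars k
  have hα : Function.Injective (α : K' →+* L) := Subtype.val_injective
  have hlift : ∀ i, ∃ Q : Polynomial K', Q.map (α : K' →+* L) = q i := by
    intro i
    have h1 : q i ∈ Polynomial.lifts (α : K' →+* L) := by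
      rw [Polynomial.lifts_iff_coeff_lifts]
      intro e
      exact ⟨⟨(q i).coeff e, hcoef i e⟩, rfl⟩
    exact (Polynomial.mem_lifts _).1 h1
  choose Q hQ using hlift
  have hQα : ∀ R : MvPolynomial (Fin n) k, (MvPolynomial.aeval Q R).map (α : K' →+* L) =
      MvPolynomial.aeval q R := by
    intro R
    rw [map_aeval_poly]
    congr 2
    funext i
    exact hQ i
  let x' : Fin n → K' := fun i => algebraMap K K' (x i)
  have hQ0 : ∀ i, (Q i).eval 0 = x' i := by
    intro i
    apply Subtype.ext
    have h1 : (((Q i).eval 0 : K') : L) = (q i).eval 0 := by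
      rw [← hQ i, Polynomial.eval_map, Polynomial.eval₂_at_zero,
        ← Polynomial.coeff_zero_eq_eval_zero]
      rfl
    rw [h1, hq0]
    rfl
  have hx'R : ∀ R : MvPolynomial (Fin n) k, MvPolynomial.aeval x' R =
      algebraMap K K' (MvPolynomial.aeval x R) := fun R =>
    MvPolynomial.aeval_algebraMap_apply K' x R
  have hevQ : ∀ R : MvPolynomial (Fin n) k, (MvPolynomial.aeval Q R).eval 0 =
      algebraMap K K' (MvPolynomial.aeval x R) := by
    intro R
    rw [eval_aeval_poly, ← hx'R]
    congr 2
    funext i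
    exact hQ0 i
  -- the component
  have hker : RingHom.ker (MvPolynomial.aeval x : MvPolynomial (Fin n) k →ₐ[k] K) ≤
      RingHom.ker (MvPolynomial.aeval Q : MvPolynomial (Fin n) k →ₐ[k] Polynomial K') := by
    refine hmin.2 ⟨RingHom.ker_isPrime _, ?_⟩ ?_
    · rw [Ideal.span_le]
      rintro _ ⟨j, rfl⟩
      change MvPolynomial.aeval Q (F j) = 0
      apply Polynomial.map_injective _ hα
      rw [hQα, hqF, Polynomial.map_zero]
    · intro R hR
      have hR' : MvPolynomial.aeval Q R = 0 := hR
      change MvPolynomial.aeval x R = 0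
      have h1 := hevQ R
      rw [hR', Polynomial.eval_zero] at h1
      exact (map_eq_zero _).1 h1.symm
  have hid : ∀ R : MvPolynomial (Fin n) k, MvPolynomial.aeval x' R = 0 →
      MvPolynomial.aeval Q R = 0 := by
    intro R hR
    rw [hx'R, map_eq_zero] at hR
    exact hker hR
  have hdegQ : 0 < (Q i0).natDegree := by
    rw [← hQ i0, Polynomial.natDegree_map_eq_of_injective hα] at hi0
    exact hi0
  have htrans : Transcendental k (x' i0) := by
    intro halg
    obtain ⟨c, hc⟩ := Pool.Agent.W602.GT.const_of_algebraic halg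
    have h1 := hid (MvPolynomial.X i0 - MvPolynomial.C c) (by
      rw [map_sub, MvPolynomial.aeval_X, MvPolynomial.aeval_C, hc, sub_self])
    rw [map_sub, MvPolynomial.aeval_X, MvPolynomial.aeval_C] at h1
    have h2 : Q i0 = Polynomial.C (algebraMap k K' c) := sub_eq_zero.1 h1
    rw [h2, Polynomial.natDegree_C] at hdegQ
    exact lt_irrefl _ hdegQ
  have halg : Algebra.IsAlgebraic (Algebra.adjoin k (Set.range x')) K' := by
    apply Pool.Agent.W602.GT.alg_adjoin
    have h2 : ∀ y : K, algebraMap K K' y ∈ IntermediateField.adjoin k (Set.range x') := by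
      intro y
      have hy : y ∈ IntermediateField.adjoin k (Set.range x) := by rw [hgen]; trivial
      rw [IntermediateField.mem_adjoin_range_iff] at hy ⊢
      obtain ⟨f, g, hfg⟩ := hy
      refine ⟨f, g, ?_⟩
      rw [hfg, map_div₀, hx'R, hx'R]
    let ψ : K →+* IntermediateField.adjoin k (Set.range x') :=
      (algebraMap K K').codRestrict (IntermediateField.adjoin k (Set.range x')) h2
    constructor
    intro z
    obtain ⟨p, hp0, hp⟩ := (Algebra.IsAlgebraic.isAlgebraic (R := K) z)
    refine ⟨p.map ψ, (Polynomial.map_ne_zero_iff ψ.injective).2 hp0, ?_⟩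
    rw [Polynomial.aeval_def, Polynomial.eval₂_map]
    exact hp
  obtain ⟨M, iF, iA, q', hMe, hMt, hMi, hMG⟩ := spec htr' x' halg Q hQ0 i0 hdegQ htrans hid G
    (fun l => ⟨algebraMap K K' (MvPolynomial.aeval x (G l)), by
      rw [Ne, map_eq_zero]; exact hG l, by
      apply Polynomial.map_injective _ hα
      rw [hQα, hqG, Polynomial.map_C]
      rfl⟩)
  obtain ⟨φ, hφ⟩ := exists_emb (E := RatFunc M) x hgen
    (fun i => algebraMap (Polynomial M) (RatFunc M) (q' i)) (by
      intro R
      rw [show MvPolynomial.aeval (fun i => algebraMap (Polynomial M) (RatFunc M) (q' i)) R =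
        algebraMap (Polynomial M) (RatFunc M) (MvPolynomial.aeval q' R) from
          MvPolynomial.aeval_algebraMap_apply (RatFunc M) q' R]
      rw [map_eq_zero_iff _ (RatFunc.algebraMap_injective M), ← hMi, hx'R]
      exact (map_eq_zero (algebraMap K K')).symm)
  have hφR : ∀ R : MvPolynomial (Fin n) k, φ (MvPolynomial.aeval x R) =
      algebraMap (Polynomial M) (RatFunc M) (MvPolynomial.aeval q' R) := by
    intro R
    have h1 : φ (MvPolynomial.aeval x R) = MvPolynomial.aeval (fun i => φ (x i)) R := by
      rw [← AlgHom.comp_apply, MvPolynomial.comp_aeval]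
    rw [h1]
    simp only [hφ]
    exact MvPolynomial.aeval_algebraMap_apply (RatFunc M) q' R
  refine ⟨M, iF, iA, φ, hMe, hMt, ?_⟩
  rintro w hw v e he hwv (⟨i, hi⟩ | ⟨l, hl⟩)
  · apply hi
    have he' : (0 : ℤ) < e := by exact_mod_cast he
    by_cases hxi : x i = 0
    · exact Or.inl hxi
    · right
      have h1 : w.Reg (φ (x i)) := by
        rw [hφ]
        exact reg_poly w hw _
      rcases h1 with h1 | h1
      · exact absurd ((map_eq_zero φ).1 h1) hxi
      · rw [hwv] at h1
        exact (mul_nonneg_iff_of_pos_left he').1 h1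
  · obtain ⟨c, hc0, hc⟩ := hMG l
    have h1 := hwv (MvPolynomial.aeval x (G l))
    rw [hφR, hc, RatFunc.algebraMap_C] at h1
    have h2 : w.ord (RatFunc.C c) = 0 := w.ord_const hc0
    rw [h2] at h1
    have he' : (0 : ℤ) < e := by exact_mod_cast he
    have := mul_pos he' hl
    omega

end Pool.Agent.Y199.NN
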